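import Pool.Agent.NH28.QP.Stm
import Pool.Agent.H951R3.PB.F1

/-!
# The absolute values of the rational numbers extend to the algebraic numbers
-/

set_option autoImplicit false

open MvPolynomial Filter Topology

namespace Pool.Agent.NH28.QP

private theorem inf_AV : ∃ w : AbsoluteValue Qb ℝ, ∀ r : ℚ, w (algebraMap ℚ Qb r) = |(r : ℝ)| := by
  obtain ⟨w, hw⟩ := Pool.Agent.H951R3.PB.exists_ext_inf (K := ℚ) Rat.infinitePlace
  refine ⟨w, fun r => ?_⟩
  have h := hw r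
  rw [eq_ratCast] at h
  rw [eq_ratCast, h]
  change Rat.infinitePlace r = _
  rw [Rat.infinitePlace_apply]
  push_cast
  rfl

private theorem fin_AV (p : ℕ) [Fact p.Prime] :
    ∃ w : AbsoluteValue Qb ℝ, ∀ r : ℚ, w (algebraMap ℚ Qb r) = ((padicNorm p r : ℚ) : ℝ) := by
  obtain ⟨w, hw⟩ := Pool.Agent.H951R3.PB.F1_ext (Rat.AbsoluteValue.padic p) (E := ℚ_[p])
    (algebraMap ℚ ℚ_[p]) (fun x => by
      rw [eq_ratCast, Rat.AbsoluteValue.padic_eq_padicNorm]
      exact Padic.eq_padicNorm x)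
  refine ⟨w, fun r => ?_⟩
  have h := hw r
  rw [eq_ratCast] at h
  rw [eq_ratCast, h, Rat.AbsoluteValue.padic_eq_padicNorm]

theorem t_AV : S_AV := by
  intro S hS
  classical
  obtain ⟨w0, hw0⟩ := inf_AV
  have hp : ∀ p : ℕ, ∃ w : AbsoluteValue Qb ℝ, p ∈ S →
      ∀ r : ℚ, w (algebraMap ℚ Qb r) = ((padicNorm p r : ℚ) : ℝ) := by
    intro p
    by_cases h : p ∈ S
    · have : Fact p.Prime := ⟨hS p h⟩
      obtain ⟨w, hw⟩ := fin_AV p
      exact ⟨w, fun _ => hw⟩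
    · exact ⟨w0, fun h' => absurd h' h⟩
  choose w hw using hp
  exact ⟨fun v => Option.elim v w0 w, ⟨hw0, fun p hp => hw p hp⟩⟩

end Pool.Agent.NH28.QP
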