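import Pool.Agent.NH28.QP.Stm

/-!
# QP-BAS: a basis of monomials modulo a ternary form
-/

set_option autoImplicit false

open MvPolynomial Filter Topology

namespace Pool.Agent.NH28.QP

namespace BAS

/-- the exponents of degree `n` -/
noncomputable def X3 (n : ℕ) : Finset (Fin 3 →₀ ℕ) := Finset.finsuppAntidiag Finset.univ n

theorem mem_X3 (n : ℕ) (c : Fin 3 →₀ ℕ) : c ∈ X3 n ↔ c.degree = n := by
  unfold X3
  rw [Finset.mem_finsuppAntidiag, Finsupp.degree_eq_sum]
  exact ⟨fun h => h.1, fun h => ⟨h, Finset.subset_univ _⟩⟩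

theorem choose2 (n : ℕ) : 2 * (n + 2).choose 2 = (n + 1) * (n + 2) := by
  induction n with
  | zero => rfl
  | succ n ih =>
    have h1 : (n + 1 + 2).choose 2 = (n + 2).choose 1 + (n + 2).choose 2 := rfl
    rw [h1, Nat.choose_one_right, mul_add, ih]
    ring

theorem card_X3 (n : ℕ) : 2 * (X3 n).card = (n + 1) * (n + 2) := by
  unfold X3
  rw [Finset.card_finsuppAntidiag_nat_eq_choose, Finset.card_univ, Fintype.card_fin]
  have h1 : 3 + n - 1 = n + 2 := by omega
  rw [h1, Nat.choose_symm_add, choose2]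

theorem card_le (m0 : Fin 3 →₀ ℕ) (d n : ℕ) (hm : m0.degree = d) :
    ((X3 (n + d)).filter fun c => m0 ≤ c).card = (X3 n).card := by
  refine Finset.card_nbij' (fun c => c - m0) (fun c => c + m0) ?_ ?_ ?_ ?_
  · intro c hc
    obtain ⟨h1, h2⟩ := Finset.mem_filter.1 (Finset.mem_coe.1 hc)
    rw [mem_X3] at h1
    rw [Finset.mem_coe, mem_X3]
    have h3 : (c - m0) + m0 = c := tsub_add_cancel_of_le h2
    have h4 := congrArg Finsupp.degree h3
    rw [map_add, hm, h1] at h4
    change (c - m0).degree = n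
    omega
  · intro c hc
    rw [Finset.mem_coe, mem_X3] at hc
    rw [Finset.mem_coe, Finset.mem_filter, mem_X3]
    refine ⟨?_, le_add_of_nonneg_left zero_le⟩
    rw [map_add, hm, hc]
  · intro c hc
    obtain ⟨h1, h2⟩ := Finset.mem_filter.1 (Finset.mem_coe.1 hc)
    exact tsub_add_cancel_of_le h2
  · intro c _
    exact add_tsub_cancel_right c m0

theorem count (m0 : Fin 3 →₀ ℕ) (d N : ℕ) (hm : m0.degree = d) (hN : d ≤ N) :
    2 * ((X3 N).filter fun c => ¬ m0 ≤ c).card + d * d = 2 * d * N + 3 * d := by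
  obtain ⟨n, rfl⟩ : ∃ n, N = n + d := ⟨N - d, by omega⟩
  have h1 := Finset.card_filter_add_card_filter_not (s := X3 (n + d)) (fun c => m0 ≤ c)
  rw [card_le m0 d n hm] at h1
  have h2 := card_X3 n
  have h3 := card_X3 (n + d)
  nlinarith

section

variable {k : Type} [Field k]

/-- a form divides the homogeneous components of its multiples -/
theorem dvd_hc {F h : MvPolynomial (Fin 3) k} {d : ℕ} (hF : F.IsHomogeneous d) (N : ℕ)
    (hd : F ∣ h) : F ∣ homogeneousComponent N h := by
  obtain ⟨q, rfl⟩ := hd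
  have h1 : F * q = ∑ i ∈ Finset.range (q.totalDegree + 1), F * homogeneousComponent i q := by
    rw [← Finset.mul_sum, sum_homogeneousComponent]
  rw [h1, map_sum]
  refine Finset.dvd_sum fun i _ => ?_
  have h2 : (F * homogeneousComponent i q) ∈ homogeneousSubmodule (Fin 3) k (d + i) :=
    hF.mul (homogeneousComponent_isHomogeneous i q)
  rw [homogeneousComponent_of_mem h2]
  split_ifs
  · exact dvd_mul_right _ _
  · exact dvd_zero _

variable {E : Finset (Fin 3 →₀ ℕ)}

/-- the enumeration of a finite set of exponents -/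
noncomputable def en (E : Finset (Fin 3 →₀ ℕ)) (i : Fin E.card) : Fin 3 →₀ ℕ :=
  (E.equivFin.symm i : E)

theorem en_mem (i : Fin E.card) : en E i ∈ E := (E.equivFin.symm i).2

theorem en_inj : Function.Injective (en E) := by
  intro i j hij
  exact E.equivFin.symm.injective (Subtype.ext hij)

theorem sum_en (s : MvPolynomial (Fin 3) k) (hs : s.support ⊆ E) :
    ∑ i : Fin E.card, monomial (en E i) (coeff (en E i) s) = s := by
  have h1 : ∑ i : Fin E.card, monomial (en E i) (coeff (en E i) s) =
      ∑ c : E, monomial (c : Fin 3 →₀ ℕ) (coeff (c : Fin 3 →₀ ℕ) s) :=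
    Equiv.sum_comp E.equivFin.symm (fun c : E => monomial (c : Fin 3 →₀ ℕ)
      (coeff (c : Fin 3 →₀ ℕ) s))
  rw [h1, Finset.sum_coe_sort E (fun c => monomial c (coeff c s))]
  conv_rhs => rw [← support_sum_monomial_coeff s]
  symm
  refine Finset.sum_subset hs fun c _ hc => ?_
  rw [notMem_support_iff.1 hc, monomial_zero]

theorem coeff_en (a : Fin E.card → k) (j : Fin E.card) :
    coeff (en E j) (∑ i : Fin E.card, monomial (en E i) (a i)) = a j := by
  rw [coeff_sum, Finset.sum_eq_single j]
  · rw [coeff_monomial, if_pos rfl]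
  · intro i _ hi
    rw [coeff_monomial, if_neg (fun h => hi (en_inj h))]
  · intro h
    exact absurd (Finset.mem_univ j) h

theorem supp_en (a : Fin E.card → k) :
    (∑ i : Fin E.card, monomial (en E i) (a i)).support ⊆ E := by
  intro c hc
  by_contra h
  rw [mem_support_iff, coeff_sum] at hc
  apply hc
  refine Finset.sum_eq_zero fun i _ => ?_
  rw [coeff_monomial, if_neg]
  rintro rfl
  exact h (en_mem i)

end

end BAS

open BAS in
theorem t_BAS : S_BAS := by
  intro k0 _ F d hF hF0 N
  obtain ⟨m0, hm0⟩ : ∃ m0, m0 = (MonomialOrder.lex : MonomialOrder (Fin 3)).degree F := ⟨_, rfl⟩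
  have hm0s : m0 ∈ F.support := by
    rw [hm0]
    exact (MonomialOrder.degree_mem_support_iff F).2 hF0
  have hm0d : m0.degree = d := by
    rw [Finsupp.degree_eq_weight_one]
    exact hF (mem_support_iff.1 hm0s)
  obtain ⟨E, hE⟩ : ∃ E, E = (X3 N).filter fun c => ¬ m0 ≤ c := ⟨_, rfl⟩
  refine ⟨E.card, en E, ?_, ?_, ?_⟩
  · intro hN
    rw [hE]
    exact count m0 d N hm0d hN
  · intro i
    have h1 : ∀ c ∈ E, c.degree = N := by
      intro c hc
      rw [hE, Finset.mem_filter, mem_X3] at hc
      exact hc.1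
    exact h1 _ (en_mem i)
  intro k _ _ g hg
  obtain ⟨F', hF'⟩ : ∃ F', F' = F.map (algebraMap k0 k) := ⟨_, rfl⟩
  rw [← hF']
  have hinj : Function.Injective (algebraMap k0 k) := (algebraMap k0 k).injective
  have hF'h : F'.IsHomogeneous d := by
    rw [hF']
    exact hF.map _
  have hF'0 : F' ≠ 0 := by
    rw [hF']
    intro h0
    exact hF0 (map_injective _ hinj (by rw [h0, map_zero]))
  have hF'd : (MonomialOrder.lex : MonomialOrder (Fin 3)).degree F' = m0 := by
    rw [hm0, hF']
    unfold MonomialOrder.degree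
    rw [support_map_of_injective _ hinj]
  have hu : IsUnit ((MonomialOrder.lex : MonomialOrder (Fin 3)).leadingCoeff F') :=
    isUnit_iff_ne_zero.2 (MonomialOrder.leadingCoeff_ne_zero_iff.2 hF'0)
  obtain ⟨q, r, hqr, -, hr⟩ := MonomialOrder.div_single hu g
  rw [hF'd] at hr
  obtain ⟨r', hr'⟩ : ∃ r', r' = homogeneousComponent N r := ⟨_, rfl⟩
  have hr's : r'.support ⊆ E := by
    intro c hc
    rw [mem_support_iff, hr', coeff_homogeneousComponent] at hc
    rw [hE, Finset.mem_filter, mem_X3]
    by_cases h1 : c.degree = N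
    · rw [if_pos h1] at hc
      exact ⟨h1, hr c (mem_support_iff.2 hc)⟩
    · rw [if_neg h1] at hc
      exact absurd rfl hc
  have hdv : F' ∣ g - r' := by
    have h1 : F' ∣ g - r := ⟨q, by rw [hqr]; ring⟩
    have h2 := dvd_hc hF'h N h1
    have h3 : homogeneousComponent N g = g := by
      have h4 : g ∈ homogeneousSubmodule (Fin 3) k N := hg
      rw [homogeneousComponent_of_mem h4, if_pos rfl]
    rw [map_sub, h3, ← hr'] at h2
    exact h2
  refine ⟨fun i => coeff (en E i) r', ?_, ?_⟩
  · change F' ∣ g - ∑ i, monomial (en E i) (coeff (en E i) r')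
    rw [sum_en r' hr's]
    exact hdv
  · intro b hb
    funext j
    obtain ⟨s, hs⟩ : ∃ s : MvPolynomial (Fin 3) k,
      s = ∑ i, monomial (en E i) (b i - coeff (en E i) r') := ⟨_, rfl⟩
    have h1 : s = (∑ i, monomial (en E i) (b i)) - r' := by
      rw [hs]
      conv_rhs => rw [← sum_en r' hr's]
      rw [← Finset.sum_sub_distrib]
      refine Finset.sum_congr rfl fun i _ => ?_
      rw [map_sub]
    have h2 : F' ∣ s := by
      have h3 : s = (g - r') - (g - ∑ i, monomial (en E i) (b i)) := by
        rw [h1]; ring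
      rw [h3]
      exact dvd_sub hdv hb
    have h3 : s = 0 := by
      by_contra hs0
      obtain ⟨t, ht⟩ := h2
      have ht0 : t ≠ 0 := by
        rintro rfl
        rw [mul_zero] at ht
        exact hs0 ht
      have h4 := MonomialOrder.degree_mul (m := (MonomialOrder.lex : MonomialOrder (Fin 3)))
        hF'0 ht0
      rw [← ht, hF'd] at h4
      have h5 : (MonomialOrder.lex : MonomialOrder (Fin 3)).degree s ∈ s.support :=
        (MonomialOrder.degree_mem_support_iff s).2 hs0
      have h6 : s.support ⊆ E := by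
        rw [hs]
        exact supp_en _
      have h7 := h6 h5
      rw [hE, Finset.mem_filter] at h7
      apply h7.2
      rw [h4]
      exact le_add_of_nonneg_right zero_le
    have h4 := coeff_en (fun i => b i - coeff (en E i) r') j
    rw [← hs, h3, coeff_zero] at h4
    exact (sub_eq_zero.1 h4.symm)

end Pool.Agent.NH28.QP
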