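import Pool.Agent.NH28.QP.Stm

/-!
# Quadratic points on exceptional curves: the theorem on an irreducible curve
-/

set_option autoImplicit false

open MvPolynomial Filter Topology

namespace Pool.Agent.NH28.QP

private lemma hDc_CRV : (Dc : PQ).IsHomogeneous 2 := by
  unfold Dc
  refine IsHomogeneous.sub ?_ ?_
  · simpa using (isHomogeneous_X Qb (1 : Fin 3)).pow 2
  · have h : (C (4 : Qb) * (X 0 * X 2) : PQ).IsHomogeneous (0 + (1 + 1)) :=
      (isHomogeneous_C _ _).mul ((isHomogeneous_X Qb (0 : Fin 3)).mul (isHomogeneous_X Qb (2 : Fin 3)))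
    have e : (4 : PQ) = C (4 : Qb) := (map_ofNat (C : Qb →+* PQ) 4).symm
    rw [e]
    exact h

private lemma hHp_CRV (P : Qb × Qb) : (Hp P).IsHomogeneous 1 := by
  unfold Hp
  have h : ∀ (a : Qb) (i : Fin 3), (C a * X i : PQ).IsHomogeneous 1 := by
    intro a i
    simpa using (isHomogeneous_C (Fin 3) a).mul (isHomogeneous_X Qb i)
  exact ((h _ _).add (h _ _)).add (h _ _)

theorem t_CRV (h1 : S_ALG) (h2 : S_LIM) (h3 : S_ST) (h4 : S_PF) (h5 : S_HT) : S_CRV := by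
  intro F0 d hF hirr q P hP hPP Φ0 c hc hΦ hnd S hS W hW ε hε
  by_contra hfin
  have hinf := Set.not_finite.mp hfin
  set E : Set (Fin 3 → ℤ) := {x : Fin 3 → ℤ | Prm x ∧ ev x (mp F0) = 0 ∧ ev x (mp Φ0) ≠ 0 ∧
      (4 + ε) * Real.log (Hx x) < ∑ v ∈ Tp S, lam W v (q + 2) (mp Φ0) x} with hE
  let x : ℕ → Fin 3 → ℤ := fun j => (hinf.natEmbedding E j : Fin 3 → ℤ)
  have hx : ∀ j, x j ∈ E := fun j => (hinf.natEmbedding E j).2
  have hxinj : Function.Injective x :=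
    Subtype.val_injective.comp (hinf.natEmbedding E).injective
  have hSq : Sq F0 x := ⟨hxinj, fun j => (hx j).1, fun j => (hx j).2.1⟩
  have hU : ((hyperfilter ℕ : Ultrafilter ℕ) : Filter ℕ) ≤ cofinite := hyperfilter_le_cofinite
  obtain ⟨w, hLm, hIsW⟩ := h2 F0 d hF hirr S hS W hW x hSq _ hU
  have hST := h3 F0 d hF hirr S hS W hW x hSq _ hU w hLm
  have hPF := h4 F0 d hF hirr S hS W hW x hSq _ hU w hLm
  have h4' := h1 F0 d hF hirr q P hP hPP Φ0 c hc hΦ hnd (Tp S) w hIsW hST hPF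
  have hFm : Fm (mp F0) (q + 2) (mp Φ0) := by
    refine ⟨?_, hnd⟩
    rw [hΦ]
    have h7 : (∏ l, Hp (P l)).IsHomogeneous (∑ _l : Fin q, 1) :=
      IsHomogeneous.prod _ _ _ fun l _ => hHp_CRV (P l)
    have h8 := (isHomogeneous_C (Fin 3) c).mul (hDc_CRV.mul h7)
    have e : 0 + (2 + ∑ _l : Fin q, 1) = q + 2 := by simp; ring
    rw [e] at h8
    exact h8
  have hlim : Tendsto (fun j => ∑ v ∈ Tp S, lam W v (q + 2) (mp Φ0) (x j) / Real.log (Hx (x j)))
      (hyperfilter ℕ : Ultrafilter ℕ) (𝓝 (∑ v ∈ Tp S, w v (mp Φ0))) :=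
    tendsto_finsetSum _ fun v hv => hLm v hv _ _ hFm
  have hht := (h5 x hxinj).mono_left hU
  have hev : ∀ᶠ j in ((hyperfilter ℕ : Ultrafilter ℕ) : Filter ℕ),
      4 + ε ≤ ∑ v ∈ Tp S, lam W v (q + 2) (mp Φ0) (x j) / Real.log (Hx (x j)) := by
    filter_upwards [hht.eventually_gt_atTop 0] with j hj
    rw [← Finset.sum_div, le_div_iff₀ hj]
    exact (hx j).2.2.2.le
  have h9 := ge_of_tendsto hlim hev
  linarith

end Pool.Agent.NH28.QP
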