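import Pool.Agent.NH28.QP.Stm
import Pool.Agent.Chud.PBZ

/-!
# Two curves without common component have finitely many common points
-/

set_option autoImplicit false

open MvPolynomial Filter Topology

namespace Pool.Agent.NH28.QP

/-- the value of a form at a multiple of a vector -/
theorem eval_smul_FIN {k : Type} [Field k] {F : MvPolynomial (Fin 3) k} {d : ℕ}
    (hF : F.IsHomogeneous d) (a : k) (v : Fin 3 → k) :
    MvPolynomial.eval (a • v) F = a ^ d * MvPolynomial.eval v F := by
  rw [MvPolynomial.eval_eq', MvPolynomial.eval_eq', Finset.mul_sum]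
  refine Finset.sum_congr rfl fun α hα => ?_
  have h1 : ∑ i, α i = d := by
    have h2 := hF (MvPolynomial.mem_support_iff.1 hα)
    rw [← h2, Finsupp.weight_apply, Finsupp.sum_fintype _ _ (by simp)]
    simp
  have h3 : ∏ i, (a • v) i ^ α i = a ^ d * ∏ i, v i ^ α i := by
    simp only [Pi.smul_apply, smul_eq_mul, mul_pow]
    rw [Finset.prod_mul_distrib, Finset.prod_pow_eq_pow_sum, h1]
  rw [h3]
  ring

/-- the set of the common points of two curves in the projective plane -/
theorem fin_proj_FIN {k : Type} [Field k] {F g : MvPolynomial (Fin 3) k} {d n : ℕ}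
    (hF : F.IsHomogeneous d) (hg : g.IsHomogeneous n) (hF0 : F ≠ 0) (hg0 : g ≠ 0)
    (hrel : IsRelPrime F g) :
    {p : Pool.Agent.Chud.PP k 2 | MvPolynomial.eval p.rep F = 0 ∧
      MvPolynomial.eval p.rep g = 0}.Finite := by
  by_contra hcon
  obtain ⟨P, hP, hPc⟩ := Set.Infinite.exists_subset_card_eq hcon (d * n + 1)
  have h1 := Pool.Agent.Chud.bezout hF hg hF0 hg0 hrel P (fun _ => 1) (fun _ => 1)
    (fun p hp => by
      rw [pow_one]
      exact (hP hp).1)
    (fun p hp => by
      rw [pow_one]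
      exact (hP hp).2)
  rw [Finset.sum_const, smul_eq_mul, mul_one, mul_one, hPc] at h1
  omega

theorem gcd_FIN {x : Fin 3 → ℤ} (hx : Prm x) : Finset.univ.gcd x = 1 := by
  have h1 := hx (Finset.univ.gcd x) fun i => Finset.gcd_dvd (Finset.mem_univ i)
  rw [← Finset.normalize_gcd]
  exact normalize_eq_one.2 h1

/-- proportional primitive vectors -/
theorem prop_FIN {x y : Fin 3 → ℤ} (hx : Prm x) (hy : Prm y) (a : Qb)
    (h : ∀ i, ((x i : ℤ) : Qb) = a * ((y i : ℤ) : Qb)) : x = y ∨ x = -y := by
  obtain ⟨i, hi⟩ : ∃ i, y i ≠ 0 := by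
    by_contra hcon
    push Not at hcon
    have h1 := hy 0 fun i => by rw [hcon i]
    exact not_isUnit_zero h1
  have h1 : ∀ j, x i * y j = y i * x j := by
    intro j
    have h2 : ((x i * y j : ℤ) : Qb) = ((y i * x j : ℤ) : Qb) := by
      push_cast
      rw [h i, h j]
      ring
    exact_mod_cast h2
  have h3 : Finset.univ.gcd (fun j => x i * y j) = Finset.univ.gcd (fun j => y i * x j) := by
    congr 1
    funext j
    exact h1 j
  have h4 : Associated (x i) (y i) := by
    have e1 := Finset.gcd_mul_left' (s := Finset.univ) (f := y) (x i)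
    have e2 := Finset.gcd_mul_left' (s := Finset.univ) (f := x) (y i)
    have g1 : Finset.univ.gcd (fun b => y b) = 1 := gcd_FIN hy
    have g2 : Finset.univ.gcd (fun b => x b) = 1 := gcd_FIN hx
    rw [gcd_FIN hy, mul_one] at e1
    rw [gcd_FIN hx, mul_one] at e2
    rw [h3] at e1
    exact e1.symm.trans e2
  rcases Int.associated_iff.1 h4 with h5 | h5
  · left
    funext j
    have h6 := h1 j
    rw [h5] at h6
    exact (mul_left_cancel₀ hi h6).symm
  · right
    funext j
    have h6 := h1 j
    rw [h5] at h6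
    have h7 : y i * (x j) = y i * (-(y j)) := by rw [← h6]; ring
    exact mul_left_cancel₀ hi h7

theorem t_FIN : S_FIN := by
  classical
  intro F d hF hirr n g hg
  obtain ⟨hgh, hgd⟩ := hg
  have hF0 : F ≠ 0 := hirr.ne_zero
  have hg0 : g ≠ 0 := by
    rintro rfl
    exact hgd (dvd_zero F)
  have hrel : IsRelPrime F g := hirr.isRelPrime_iff_not_dvd.2 hgd
  have hfin := fin_proj_FIN hF hgh hF0 hg0 hrel
  have hne : ∀ x : Fin 3 → ℤ, Prm x → (fun i => ((x i : ℤ) : Qb)) ≠ 0 := by
    intro x hx h0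
    have h1 : ∀ i, x i = 0 := by
      intro i
      have h2 := congrFun h0 i
      simp only [Pi.zero_apply] at h2
      exact_mod_cast h2
    have h2 := hx 0 fun i => by rw [h1 i]
    exact not_isUnit_zero h2
  let φ : (Fin 3 → ℤ) → Option (Pool.Agent.Chud.PP Qb 2) := fun x =>
    if hx : (fun i => ((x i : ℤ) : Qb)) ≠ 0 then some (Projectivization.mk Qb _ hx) else none
  refine Set.Finite.of_finite_fibers φ ((hfin.image some).subset ?_) ?_
  · rintro _ ⟨x, ⟨hx, hxF, hxg⟩, rfl⟩
    have h0 := hne x hx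
    have h1 : φ x = some (Projectivization.mk Qb _ h0) := dif_pos h0
    rw [h1]
    refine ⟨Projectivization.mk Qb _ h0, ?_, rfl⟩
    obtain ⟨a, ha⟩ := Projectivization.exists_smul_eq_mk_rep Qb (fun i => ((x i : ℤ) : Qb)) h0
    show MvPolynomial.eval (Projectivization.mk Qb _ h0).rep F = 0 ∧
      MvPolynomial.eval (Projectivization.mk Qb _ h0).rep g = 0
    rw [← ha]
    have e : a • (fun i => ((x i : ℤ) : Qb)) = (a : Qb) • (fun i => ((x i : ℤ) : Qb)) := rfl
    rw [e, eval_smul_FIN hF, eval_smul_FIN hgh]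
    unfold ev at hxF hxg
    rw [hxF, hxg, mul_zero, mul_zero]
    exact ⟨rfl, rfl⟩
  · rintro _ ⟨x, ⟨hx, -, -⟩, rfl⟩
    refine (Set.toFinite {x, -x}).subset ?_
    rintro y ⟨⟨hy, -, -⟩, hxy⟩
    have h0 := hne x hx
    have h0' := hne y hy
    have h1 : φ x = some (Projectivization.mk Qb _ h0) := dif_pos h0
    have h2 : φ y = some (Projectivization.mk Qb _ h0') := dif_pos h0'
    have h3 : φ y = φ x := hxy
    rw [h1, h2] at h3
    have h4 := Option.some_injective _ h3
    rw [Projectivization.mk_eq_mk_iff'] at h4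
    obtain ⟨a, ha⟩ := h4
    have h5 := prop_FIN hy hx a (fun i => (congrFun ha i).symm)
    exact h5

end Pool.Agent.NH28.QP
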