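import Pool.Agent.NH28.QP.Stm

/-!
# The heights tend to infinity
-/

set_option autoImplicit false

open MvPolynomial Filter Topology

namespace Pool.Agent.NH28.QP

theorem le_Hx {m : ℕ} (x : Fin m → ℤ) (i : Fin m) : |(x i : ℝ)| ≤ Hx x :=
  le_ciSup (f := fun i => |(x i : ℝ)|) (Set.finite_range _).bddAbove i

theorem exists_Hx {m : ℕ} (hm : 0 < m) (x : Fin m → ℤ) : ∃ i, |(x i : ℝ)| = Hx x := by
  have : Nonempty (Fin m) := ⟨⟨0, hm⟩⟩
  obtain ⟨i, hi⟩ := Finite.exists_max fun i => |(x i : ℝ)|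
  exact ⟨i, le_antisymm (le_Hx x i) (ciSup_le hi)⟩

theorem one_le_Hx {x : Fin 3 → ℤ} (h : Prm x) : 1 ≤ Hx x := by
  have h1 : ∃ i, x i ≠ 0 := by
    by_contra hcon
    push Not at hcon
    have h2 := h 0 fun i => by rw [hcon i]
    exact not_isUnit_zero h2
  obtain ⟨i, hi⟩ := h1
  have h2 : (1 : ℝ) ≤ |(x i : ℝ)| := by
    rw [← Int.cast_abs]
    exact_mod_cast Int.one_le_abs hi
  exact h2.trans (le_Hx x i)

/-- finitely many vectors of bounded height -/
theorem finite_HT (m : ℕ) (B : ℝ) : {x : Fin m → ℤ | Hx x ≤ B}.Finite := by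
  have h1 : {x : Fin m → ℤ | Hx x ≤ B} ⊆ Set.pi Set.univ fun _ => Set.Icc (-⌈B⌉) ⌈B⌉ := by
    intro x hx i _
    have h2 : |(x i : ℝ)| ≤ (⌈B⌉ : ℝ) := (le_Hx x i).trans (hx.trans (Int.le_ceil B))
    rw [abs_le] at h2
    constructor
    · exact_mod_cast h2.1
    · exact_mod_cast h2.2
  exact (Set.Finite.pi' fun _ => Set.finite_Icc _ _).subset fun x hx i => h1 hx i (Set.mem_univ i)

theorem t_HT : S_HT := by
  intro x hinj
  refine Real.tendsto_log_atTop.comp ?_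
  rw [tendsto_atTop]
  intro B
  rw [eventually_cofinite]
  have h1 : {j | ¬ B ≤ Hx (x j)} ⊆ x ⁻¹' {y | Hx y ≤ B} := by
    intro j hj
    exact (not_le.1 hj).le
  exact ((finite_HT 3 B).preimage hinj.injOn).subset h1

end Pool.Agent.NH28.QP
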