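import Pool.Agent.NH28.QP.Stm

set_option autoImplicit false

open MvPolynomial Filter Topology

namespace Pool.Agent.NH28.QP

private theorem ev_mul (x : Fin 3 → ℤ) (g h : PQ) : ev x (g * h) = ev x g * ev x h := by
  simp [ev]

private theorem ev_add (x : Fin 3 → ℤ) (g h : PQ) : ev x (g + h) = ev x g + ev x h := by
  simp [ev]

private theorem ev_X (x : Fin 3 → ℤ) (i : Fin 3) : ev x (X i) = ((x i : ℤ) : Qb) := by
  simp [ev]

private theorem ev_zero_of_dvd {x : Fin 3 → ℤ} {F g : PQ} (hF : ev x F = 0) (h : F ∣ g) :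
    ev x g = 0 := by
  obtain ⟨k, rfl⟩ := h
  rw [ev_mul, hF, zero_mul]

/-- at every place some coordinate of a primitive vector is large -/
private theorem big_coord {S : Finset ℕ} (hS : ∀ p ∈ S, p.Prime) {W : Option ℕ → AbsoluteValue Qb ℝ}
    (hW : Gd S W) {v : Option ℕ} (hv : v ∈ Tp S) {x : Fin 3 → ℤ} (hx : Prm x) :
    ∃ i : Fin 3, x i ≠ 0 ∧ W v (ev x (X i)) = nv v x := by
  have hcast : ∀ i, ev x (X i) = algebraMap ℚ Qb ((x i : ℤ) : ℚ) := by
    intro i
    rw [ev_X]
    simp
  rw [Tp, Finset.mem_insert, Finset.mem_image] at hv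
  rcases hv with rfl | ⟨p, hp, rfl⟩
  · obtain ⟨i, hi⟩ := exists_eq_ciSup_of_finite (f := fun i => |(x i : ℝ)|)
    have hW1 : W none (ev x (X i)) = |(x i : ℝ)| := by
      rw [hcast, hW.inf]
      simp
    refine ⟨i, ?_, ?_⟩
    · intro h0
      have hall : ∀ j, x j = 0 := by
        intro j
        have h1 : |(x j : ℝ)| ≤ ⨆ i, |(x i : ℝ)| :=
          le_ciSup (f := fun i => |(x i : ℝ)|) (Set.finite_range _).bddAbove j
        rw [← hi] at h1
        simp only [h0, Int.cast_zero, abs_zero] at h1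
        have h2 := abs_nonpos_iff.1 h1
        exact_mod_cast h2
      have h3 := hx 0 (fun j => by rw [hall j])
      exact not_isUnit_zero h3
    · rw [hW1]
      exact hi
  · have : Fact p.Prime := ⟨hS p hp⟩
    have hex : ∃ i, ¬ (p : ℤ) ∣ x i := by
      by_contra hcon
      push Not at hcon
      have h3 := hx p hcon
      rw [Int.isUnit_iff_natAbs_eq, Int.natAbs_natCast] at h3
      exact (hS p hp).one_lt.ne' h3
    obtain ⟨i, hi⟩ := hex
    refine ⟨i, ?_, ?_⟩
    · intro h0
      exact hi (h0 ▸ dvd_zero _)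
    · rw [hcast, hW.fin p hp]
      have h4 : padicNorm p ((x i : ℤ) : ℚ) = 1 := by
        rw [padicNorm.int_eq_one_iff]
        exact hi
      rw [h4]
      simp [nv]

theorem t_LIM (h1 : S_BDD) (h2 : S_FIN) (h3 : S_HT) : S_LIM := by
  intro F0 d hF0 hirr S hS W hW x hx U hU
  have hFh : (mp F0).IsHomogeneous d := hF0.map _
  have hprime : Prime (mp F0) := hirr.prime
  have hL : Tendsto (fun j => Real.log (Hx (x j))) U atTop := (h3 x hx.inj).mono_left hU
  have hLpos : ∀ᶠ j in (U : Filter ℕ), 1 ≤ Real.log (Hx (x j)) := hL.eventually_ge_atTop 1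
  have hne : ∀ n g, Fm (mp F0) n g → ∀ᶠ j in (U : Filter ℕ), ev (x j) g ≠ 0 := by
    intro n g hg
    have hfin := (h2 (mp F0) d hFh hirr n g hg).preimage (f := x) hx.inj.injOn
    refine hU ?_
    rw [mem_cofinite]
    refine hfin.subset ?_
    intro j hj
    exact ⟨hx.prm j, hx.zer j, not_not.1 hj⟩
  have hlim : ∀ v ∈ Tp S, ∀ n g, Fm (mp F0) n g → ∃ r : ℝ, 0 ≤ r ∧
      Tendsto (fun j => lam W v n g (x j) / Real.log (Hx (x j))) U (𝓝 r) := by
    intro v hv n g hg
    obtain ⟨K, c, hK, hc, hb⟩ := h1 S hS W hW v hv n g hg.1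
    have hbd : ∀ᶠ j in (U : Filter ℕ),
        lam W v n g (x j) / Real.log (Hx (x j)) ∈ Set.Icc (-c) (K + c) := by
      filter_upwards [hLpos, hne n g hg] with j hj1 hj2
      have h := hb (x j) (hx.prm j) hj2
      have hpos : 0 < Real.log (Hx (x j)) := by linarith
      constructor
      · rw [le_div_iff₀ hpos]; nlinarith
      · rw [div_le_iff₀ hpos]; nlinarith
    obtain ⟨r, hr, hr2⟩ := isCompact_Icc.ultrafilter_le_nhds
      (U.map fun j => lam W v n g (x j) / Real.log (Hx (x j)))
      (by rw [le_principal_iff]; exact hbd)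
    have hr3 : Tendsto (fun j => lam W v n g (x j) / Real.log (Hx (x j))) U (𝓝 r) := hr2
    refine ⟨r, ?_, hr3⟩
    have hlow : Tendsto (fun j => -c / Real.log (Hx (x j))) U (𝓝 0) := hL.const_div_atTop _
    refine le_of_tendsto_of_tendsto hlow hr3 ?_
    filter_upwards [hLpos, hne n g hg] with j hj1 hj2
    have h := hb (x j) (hx.prm j) hj2
    exact div_le_div_of_nonneg_right h.1 (by linarith)
  have hex : ∀ v g, ∃ r : ℝ, ∀ n, v ∈ Tp S → Fm (mp F0) n g → 0 ≤ r ∧
      Tendsto (fun j => lam W v n g (x j) / Real.log (Hx (x j))) U (𝓝 r) := by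
    intro v g
    by_cases hcase : v ∈ Tp S ∧ ∃ n, Fm (mp F0) n g
    · obtain ⟨hv, n, hg⟩ := hcase
      obtain ⟨r, hr⟩ := hlim v hv n g hg
      refine ⟨r, fun m _ hm => ?_⟩
      have hg0 : g ≠ 0 := by
        rintro rfl
        exact hg.2 (dvd_zero _)
      rw [hm.1.inj_right hg.1 hg0]
      exact hr
    · exact ⟨0, fun n hv hg => absurd ⟨hv, n, hg⟩ hcase⟩
  choose w hw using hex
  refine ⟨w, fun v hv n g hg => (hw v g n hv hg).2, ?_⟩
  intro v hv
  have hT : ∀ n g, Fm (mp F0) n g →
      Tendsto (fun j => lam W v n g (x j) / Real.log (Hx (x j))) U (𝓝 (w v g)) :=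
    fun n g hg => (hw v g n hv hg).2
  refine ⟨?_, ?_, ?_, ?_, ?_, ?_⟩
  · intro n g hg
    exact (hw v g n hv hg).1
  · intro m n g h hg hh
    have hgh : Fm (mp F0) (m + n) (g * h) := by
      refine ⟨hg.1.mul hh.1, fun hd => ?_⟩
      rcases hprime.dvd_or_dvd hd with h4 | h4
      · exact hg.2 h4
      · exact hh.2 h4
    refine tendsto_nhds_unique (hT _ _ hgh) ?_
    refine ((hT _ _ hg).add (hT _ _ hh)).congr' ?_
    filter_upwards [hne _ _ hg, hne _ _ hh] with j hj1 hj2
    have e1 : W v (ev (x j) g) ≠ 0 := (W v).ne_zero hj1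
    have e2 : W v (ev (x j) h) ≠ 0 := (W v).ne_zero hj2
    rw [← add_div]
    congr 1
    unfold lam
    rw [ev_mul, map_mul, Real.log_mul e1 e2]
    push_cast
    ring
  · intro n g h hg hh hgh
    have hsub : Tendsto (fun j => min (lam W v n g (x j) / Real.log (Hx (x j)))
        (lam W v n h (x j) / Real.log (Hx (x j))) - Real.log 2 / Real.log (Hx (x j))) U
        (𝓝 (min (w v g) (w v h) - 0)) :=
      ((hT _ _ hg).min (hT _ _ hh)).sub (hL.const_div_atTop _)
    rw [sub_zero] at hsub
    refine le_of_tendsto_of_tendsto hsub (hT _ _ hgh) ?_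
    filter_upwards [hLpos, hne _ _ hg, hne _ _ hh, hne _ _ hgh] with j hj hj1 hj2 hj3
    have hpos : 0 < Real.log (Hx (x j)) := by linarith
    have e1 : 0 < W v (ev (x j) g) := (W v).pos hj1
    have e2 : 0 < W v (ev (x j) h) := (W v).pos hj2
    have e3 : 0 < W v (ev (x j) (g + h)) := (W v).pos hj3
    have e4 : W v (ev (x j) (g + h)) ≤ W v (ev (x j) g) + W v (ev (x j) h) := by
      rw [ev_add]
      exact (W v).add_le _ _
    have key : min (lam W v n g (x j)) (lam W v n h (x j)) - Real.log 2 ≤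
        lam W v n (g + h) (x j) := by
      unfold lam
      rcases le_total (W v (ev (x j) g)) (W v (ev (x j) h)) with hle | hle
      · have h5 : Real.log (W v (ev (x j) (g + h))) ≤
            Real.log 2 + Real.log (W v (ev (x j) h)) := by
          rw [← Real.log_mul (by norm_num) e2.ne']
          exact Real.log_le_log e3 (by linarith)
        have h6 := min_le_right (n * Real.log (nv v (x j)) - Real.log (W v (ev (x j) g)))
          (n * Real.log (nv v (x j)) - Real.log (W v (ev (x j) h)))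
        linarith
      · have h5 : Real.log (W v (ev (x j) (g + h))) ≤
            Real.log 2 + Real.log (W v (ev (x j) g)) := by
          rw [← Real.log_mul (by norm_num) e1.ne']
          exact Real.log_le_log e3 (by linarith)
        have h6 := min_le_left (n * Real.log (nv v (x j)) - Real.log (W v (ev (x j) g)))
          (n * Real.log (nv v (x j)) - Real.log (W v (ev (x j) h)))
        linarith
    have h7 : min (lam W v n g (x j) / Real.log (Hx (x j)))
        (lam W v n h (x j) / Real.log (Hx (x j))) =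
        min (lam W v n g (x j)) (lam W v n h (x j)) / Real.log (Hx (x j)) :=
      min_div_div_right hpos.le _ _
    rw [h7, ← sub_div]
    exact div_le_div_of_nonneg_right key hpos.le
  · intro c hc
    have hF : Fm (mp F0) 0 (C c) := by
      refine ⟨isHomogeneous_C _ _, fun hd => ?_⟩
      exact hirr.not_isUnit (isUnit_of_dvd_unit hd ((isUnit_iff_ne_zero.2 hc).map C))
    refine tendsto_nhds_unique (hT _ _ hF) ?_
    have h4 : Tendsto (fun j => (-Real.log (W v c)) / Real.log (Hx (x j))) U (𝓝 0) :=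
      hL.const_div_atTop _
    refine h4.congr' ?_
    filter_upwards with j
    congr 1
    unfold lam ev
    simp
  · have hP : ∀ i : Fin 3, (∀ᶠ j in (U : Filter ℕ), x j i ≠ 0 ∧ W v (ev (x j) (X i)) = nv v (x j)) →
        Fm (mp F0) 1 (X i) ∧ w v (X i) = 0 := by
      intro i hi
      have hF : Fm (mp F0) 1 (X i) := by
        refine ⟨isHomogeneous_X _ _, fun hd => ?_⟩
        obtain ⟨j, hj, -⟩ := hi.exists
        have h5 := ev_zero_of_dvd (hx.zer j) hd
        rw [ev_X] at h5
        exact hj (by exact_mod_cast h5)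
      refine ⟨hF, ?_⟩
      refine tendsto_nhds_unique (hT _ _ hF) ?_
      refine (tendsto_const_nhds (x := (0 : ℝ))).congr' ?_
      filter_upwards [hi] with j hj
      unfold lam
      rw [hj.2]
      simp
    have hall : ∀ᶠ j in (U : Filter ℕ),
        (x j 0 ≠ 0 ∧ W v (ev (x j) (X 0)) = nv v (x j)) ∨
        ((x j 1 ≠ 0 ∧ W v (ev (x j) (X 1)) = nv v (x j)) ∨
        (x j 2 ≠ 0 ∧ W v (ev (x j) (X 2)) = nv v (x j))) := by
      filter_upwards with j
      obtain ⟨i, hi⟩ := big_coord hS hW hv (hx.prm j)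
      fin_cases i
      · exact Or.inl hi
      · exact Or.inr (Or.inl hi)
      · exact Or.inr (Or.inr hi)
    rw [Ultrafilter.eventually_or, Ultrafilter.eventually_or] at hall
    rcases hall with h4 | h4 | h4
    · exact ⟨0, hP 0 h4⟩
    · exact ⟨1, hP 1 h4⟩
    · exact ⟨2, hP 2 h4⟩
  · intro n g h hg hh hd
    refine tendsto_nhds_unique (hT _ _ hg) ?_
    refine (hT _ _ hh).congr' ?_
    filter_upwards with j
    have h4 : ev (x j) g = ev (x j) h := by
      have h5 := ev_zero_of_dvd (hx.zer j) hd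
      have h6 : ev (x j) (g - h) = ev (x j) g - ev (x j) h := by simp [ev]
      rw [h6] at h5
      exact sub_eq_zero.1 h5
    unfold lam
    rw [h4]

end Pool.Agent.NH28.QP
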