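import Pool.Agent.NH28.QP.Stm

/-!
# The product formula for the limits of the local heights
-/

set_option autoImplicit false

open MvPolynomial Filter Topology

namespace Pool.Agent.NH28.QP

/-- values of rational polynomials -/
private lemma ev_mp_PF (x : Fin 3 → ℤ) (g : MvPolynomial (Fin 3) ℚ) :
    ev x (mp g) = algebraMap ℚ Qb (MvPolynomial.eval (fun i => ((x i : ℤ) : ℚ)) g) := by
  unfold ev mp
  induction g using MvPolynomial.induction_on with
  | C a => simp
  | add p q hp hq => simp only [map_add, hp, hq]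
  | mul_X p i hp => simp only [map_mul, hp, map_X, eval_X, map_intCast]

/-- clearing the denominators -/
private lemma den_PF (g : MvPolynomial (Fin 3) ℚ) : ∃ a : ℕ, 0 < a ∧ ∀ x : Fin 3 → ℤ,
    ∃ m : ℤ, (m : ℚ) = a * MvPolynomial.eval (fun i => ((x i : ℤ) : ℚ)) g := by
  induction g using MvPolynomial.induction_on with
  | C r =>
    refine ⟨r.den, r.den_pos, fun x => ⟨r.num, ?_⟩⟩
    rw [eval_C, mul_comm]
    exact (Rat.mul_den_eq_num r).symm
  | add p q hp hq =>
    obtain ⟨a, ha, h1⟩ := hp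
    obtain ⟨b, hb, h2⟩ := hq
    refine ⟨a * b, Nat.mul_pos ha hb, fun x => ?_⟩
    obtain ⟨m1, hm1⟩ := h1 x
    obtain ⟨m2, hm2⟩ := h2 x
    refine ⟨b * m1 + a * m2, ?_⟩
    push_cast
    rw [map_add, hm1, hm2]
    ring
  | mul_X p i hp =>
    obtain ⟨a, ha, h1⟩ := hp
    refine ⟨a, ha, fun x => ?_⟩
    obtain ⟨m1, hm1⟩ := h1 x
    refine ⟨m1 * x i, ?_⟩
    push_cast
    rw [map_mul, eval_X, hm1]
    ring

/-- the size of the values -/
private lemma size_PF (g : MvPolynomial (Fin 3) ℚ) (n : ℕ) (hg : g.IsHomogeneous n) :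
    ∃ A : ℝ, 0 < A ∧ ∀ x : Fin 3 → ℤ,
      |((MvPolynomial.eval (fun i => ((x i : ℤ) : ℚ)) g : ℚ) : ℝ)| ≤ A * Hx x ^ n := by
  refine ⟨∑ s ∈ g.support, |((g.coeff s : ℚ) : ℝ)| + 1, ?_, fun x => ?_⟩
  · have : 0 ≤ ∑ s ∈ g.support, |((g.coeff s : ℚ) : ℝ)| :=
      Finset.sum_nonneg fun _ _ => abs_nonneg _
    linarith
  · have hH : 0 ≤ Hx x := Real.iSup_nonneg fun i => abs_nonneg _
    have hx : ∀ i, |((x i : ℤ) : ℝ)| ≤ Hx x := fun i =>
      le_ciSup (f := fun i => |((x i : ℤ) : ℝ)|) (Set.finite_range _).bddAbove i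
    rw [eval_eq']
    push_cast
    refine (Finset.abs_sum_le_sum_abs _ _).trans ?_
    rw [add_mul, Finset.sum_mul, one_mul]
    refine (Finset.sum_le_sum fun s hs => ?_).trans (le_add_of_nonneg_right (pow_nonneg hH n))
    rw [abs_mul, Finset.abs_prod]
    refine mul_le_mul_of_nonneg_left ?_ (abs_nonneg _)
    have h1 : ∑ i, s i = n := by
      have h2 := hg (mem_support_iff.1 hs)
      rw [← h2, Finsupp.weight_apply, Finsupp.sum_fintype _ _ (by simp)]
      simp
    rw [← h1, ← Finset.prod_pow_eq_pow_sum]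
    refine Finset.prod_le_prod (fun _ _ => abs_nonneg _) fun i _ => ?_
    rw [abs_pow]
    exact pow_le_pow_left₀ (abs_nonneg _) (hx i) _

/-- the absolute values of an integer at finitely many primes -/
private lemma prod_PF (S : Finset ℕ) (hS : ∀ p ∈ S, p.Prime) (m : ℤ) (hm : m ≠ 0) :
    0 ≤ Real.log |(m : ℝ)| + ∑ p ∈ S, Real.log ((padicNorm p (m : ℚ) : ℚ) : ℝ) := by
  have h1 : ∏ p ∈ S, p ^ padicValNat p m.natAbs ∣ m.natAbs := by
    refine Finset.prod_dvd_of_isRelPrime (fun p hp q hq hne => ?_) fun p hp => pow_padicValNat_dvd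
    show IsRelPrime (p ^ padicValNat p m.natAbs) (q ^ padicValNat q m.natAbs)
    rw [← Nat.coprime_iff_isRelPrime]
    exact Nat.Coprime.pow _ _ ((Nat.coprime_primes (hS p hp) (hS q hq)).2 hne)
  have h2 : ∏ p ∈ S, p ^ padicValNat p m.natAbs ≤ m.natAbs :=
    Nat.le_of_dvd (Int.natAbs_pos.2 hm) h1
  have h3 : (∏ p ∈ S, (p : ℝ) ^ padicValNat p m.natAbs) ≤ |(m : ℝ)| := by
    have h4 : ((∏ p ∈ S, p ^ padicValNat p m.natAbs : ℕ) : ℝ) ≤ (m.natAbs : ℝ) := by
      exact_mod_cast h2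
    rw [Nat.cast_natAbs] at h4
    push_cast at h4
    exact h4
  have hp0 : ∀ p ∈ S, (0 : ℝ) < (p : ℝ) ^ padicValNat p m.natAbs := fun p hp =>
    pow_pos (by exact_mod_cast (hS p hp).pos) _
  have h4 := Real.log_le_log (Finset.prod_pos hp0) h3
  rw [Real.log_prod fun p hp => (hp0 p hp).ne'] at h4
  have h5 : ∑ p ∈ S, Real.log ((padicNorm p (m : ℚ) : ℚ) : ℝ) =
      - ∑ p ∈ S, Real.log ((p : ℝ) ^ padicValNat p m.natAbs) := by
    rw [← Finset.sum_neg_distrib]
    refine Finset.sum_congr rfl fun p hp => ?_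
    have : Fact p.Prime := ⟨hS p hp⟩
    rw [padicNorm.eq_zpow_of_nonzero (by exact_mod_cast hm), padicValRat.of_int, padicValInt,
      zpow_neg, zpow_natCast]
    push_cast
    rw [Real.log_inv]
  rw [h5]
  linarith

/-- the upper bound for the sum of the local heights -/
private lemma bd_PF {S : Finset ℕ} (hS : ∀ p ∈ S, p.Prime) {W : Option ℕ → AbsoluteValue Qb ℝ}
    (hW : Gd S W) (n : ℕ) (g : MvPolynomial (Fin 3) ℚ) (hg : g.IsHomogeneous n) :
    ∃ c : ℝ, ∀ T' ⊆ Tp S, ∀ x : Fin 3 → ℤ, 0 < Hx x → ev x (mp g) ≠ 0 →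
      ∑ v ∈ T', lam W v n (mp g) x ≤ n * Real.log (Hx x) + c := by
  obtain ⟨a, ha, hden⟩ := den_PF g
  obtain ⟨A, hA, hsz⟩ := size_PF g n hg
  refine ⟨Real.log a + |Real.log A|, fun T' hT' x hx hne => ?_⟩
  obtain ⟨m, hm⟩ := hden x
  obtain ⟨r, hr⟩ : ∃ r, r = MvPolynomial.eval (fun i => ((x i : ℤ) : ℚ)) g := ⟨_, rfl⟩
  have hev : ev x (mp g) = algebraMap ℚ Qb r := by rw [ev_mp_PF, hr]
  have hr0 : r ≠ 0 := by
    intro h
    rw [hev, h, map_zero] at hne
    exact hne rfl
  rw [← hr] at hm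
  have hsz' := hsz x
  rw [← hr] at hsz'
  have ha0 : (a : ℚ) ≠ 0 := by exact_mod_cast ha.ne'
  have haR : (0 : ℝ) < a := by exact_mod_cast ha
  have hm0 : m ≠ 0 := by
    intro h
    rw [h, Int.cast_zero] at hm
    exact mul_ne_zero ha0 hr0 hm.symm
  have hrR : ((r : ℚ) : ℝ) ≠ 0 := by exact_mod_cast hr0
  have hmR : ((m : ℤ) : ℝ) = a * ((r : ℚ) : ℝ) := by
    have h := congrArg (fun t : ℚ => (t : ℝ)) hm
    push_cast at h
    exact h
  have hlogm : Real.log |(m : ℝ)| = Real.log a + Real.log |((r : ℚ) : ℝ)| := by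
    rw [hmR, abs_mul, Real.log_mul (abs_ne_zero.2 haR.ne') (abs_ne_zero.2 hrR), abs_of_pos haR]
  have hlogr : Real.log |((r : ℚ) : ℝ)| ≤ Real.log A + n * Real.log (Hx x) := by
    have h := Real.log_le_log (abs_pos.2 hrR) hsz'
    rw [Real.log_mul hA.ne' (pow_ne_zero _ hx.ne'), Real.log_pow] at h
    exact h
  obtain ⟨B, hB⟩ : ∃ B : Option ℕ → ℝ, B = fun v => match v with
    | none => n * Real.log (Hx x) - Real.log |(m : ℝ)| + (Real.log a + |Real.log A|)
    | some p => - Real.log ((padicNorm p (m : ℚ) : ℚ) : ℝ) := ⟨_, rfl⟩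
  have hBn : B none = n * Real.log (Hx x) - Real.log |(m : ℝ)| + (Real.log a + |Real.log A|) := by
    rw [hB]
  have hBs : ∀ p, B (some p) = - Real.log ((padicNorm p (m : ℚ) : ℚ) : ℝ) := by
    intro p
    rw [hB]
  have hle : ∀ v ∈ Tp S, lam W v n (mp g) x ≤ B v ∧ 0 ≤ B v := by
    intro v hv
    unfold Tp at hv
    rw [Finset.mem_insert, Finset.mem_image] at hv
    rcases hv with rfl | ⟨p, hp, rfl⟩
    · rw [hBn]
      have e1 : lam W none n (mp g) x = n * Real.log (Hx x) - Real.log |((r : ℚ) : ℝ)| := by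
        unfold lam
        rw [hev, hW.inf]
        rfl
      have h1 := abs_nonneg (Real.log A)
      have h2 := le_abs_self (Real.log A)
      rw [e1, hlogm]
      constructor <;> linarith
    · rw [hBs]
      have : Fact p.Prime := ⟨hS p hp⟩
      have e1 : lam W (some p) n (mp g) x = - Real.log ((padicNorm p r : ℚ) : ℝ) := by
        unfold lam
        rw [hev, hW.fin p hp]
        show (n : ℝ) * Real.log 1 - _ = _
        rw [Real.log_one]
        ring
      have hpos : ∀ t : ℚ, t ≠ 0 → (0 : ℝ) < ((padicNorm p t : ℚ) : ℝ) := by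
        intro t ht
        have h1 := padicNorm.nonneg (p := p) t
        have h2 := padicNorm.nonzero (p := p) ht
        exact_mod_cast lt_of_le_of_ne h1 h2.symm
      have e2 : ((padicNorm p (m : ℚ) : ℚ) : ℝ) =
          ((padicNorm p (a : ℚ) : ℚ) : ℝ) * ((padicNorm p r : ℚ) : ℝ) := by
        rw [hm, padicNorm.mul]
        push_cast
        rfl
      have e3 : Real.log ((padicNorm p (a : ℚ) : ℚ) : ℝ) ≤ 0 :=
        Real.log_nonpos (hpos _ ha0).le (by exact_mod_cast padicNorm.of_nat (p := p) a)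
      have e4 : Real.log ((padicNorm p (m : ℚ) : ℚ) : ℝ) ≤ 0 :=
        Real.log_nonpos (hpos _ (by exact_mod_cast hm0)).le
          (by exact_mod_cast padicNorm.of_int (p := p) m)
      refine ⟨?_, by linarith⟩
      rw [e1, e2, Real.log_mul (hpos _ ha0).ne' (hpos _ hr0).ne']
      linarith
  calc ∑ v ∈ T', lam W v n (mp g) x ≤ ∑ v ∈ T', B v :=
        Finset.sum_le_sum fun v hv => (hle v (hT' hv)).1
    _ ≤ ∑ v ∈ Tp S, B v :=
        Finset.sum_le_sum_of_subset_of_nonneg hT' fun v hv _ => (hle v hv).2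
    _ = n * Real.log (Hx x) + (Real.log a + |Real.log A|) -
        (Real.log |(m : ℝ)| + ∑ p ∈ S, Real.log ((padicNorm p (m : ℚ) : ℚ) : ℝ)) := by
        unfold Tp
        rw [Finset.sum_insert (by simp), Finset.sum_image (fun _ _ _ _ h => Option.some.inj h), hBn,
          Finset.sum_congr rfl fun p _ => hBs p, Finset.sum_neg_distrib]
        ring
    _ ≤ n * Real.log (Hx x) + (Real.log a + |Real.log A|) := by
        have := prod_PF S hS m hm0
        linarith

/-- **(QP-PF)** the product formula for the limits -/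
theorem t_PF (h1 : S_FIN) (h2 : S_HT) : S_PF := by
  intro F0 d hF hirr S hS W hW x hx U hU w hL T' hT' n g hg
  have hgh : g.IsHomogeneous n := by
    intro s hs
    refine hg.1 ?_
    unfold mp
    rw [coeff_map]
    exact (map_ne_zero _).2 hs
  obtain ⟨c, hc⟩ := bd_PF hS hW n g hgh
  have hFm : (mp F0).IsHomogeneous d := hF.map _
  have hfin := h1 (mp F0) d hFm hirr n (mp g) hg
  have hne : ∀ᶠ j in (U : Filter ℕ), ev (x j) (mp g) ≠ 0 := by
    refine hU ?_
    rw [mem_cofinite]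
    refine (hfin.preimage hx.inj.injOn).subset fun j hj => ?_
    have hj' : ev (x j) (mp g) = 0 := by
      by_contra h
      exact hj h
    exact ⟨hx.prm j, hx.zer j, hj'⟩
  have hH : Tendsto (fun j => Real.log (Hx (x j))) U atTop := (h2 x hx.inj).mono_left hU
  have hsum : Tendsto (fun j => ∑ v ∈ T', lam W v n (mp g) (x j) / Real.log (Hx (x j))) U
      (𝓝 (∑ v ∈ T', w v (mp g))) :=
    tendsto_finset_sum _ fun v hv => hL v (hT' hv) n _ hg
  have hup : Tendsto (fun j => (n : ℝ) + c / Real.log (Hx (x j))) U (𝓝 ((n : ℝ) + 0)) :=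
    tendsto_const_nhds.add (hH.const_div_atTop c)
  rw [add_zero] at hup
  refine le_of_tendsto_of_tendsto hsum hup ?_
  filter_upwards [hne, hH.eventually_gt_atTop 0] with j hj1 hj2
  have hpos : 0 < Hx (x j) := by
    have h0 : 0 ≤ Hx (x j) := Real.iSup_nonneg fun i => abs_nonneg _
    rcases h0.eq_or_lt with h | h
    · rw [← h, Real.log_zero] at hj2
      exact absurd hj2 (lt_irrefl 0)
    · exact h
  have h3 := hc T' hT' (x j) hpos hj1
  rw [← Finset.sum_div, div_le_iff₀ hj2, add_mul, div_mul_cancel₀ _ hj2.ne']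
  exact h3

end Pool.Agent.NH28.QP
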