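import Pool.Agent.NH28.QP.Stm

/-!
# QP-RED: reduction to irreducible curves
-/

set_option autoImplicit false

open MvPolynomial Filter Topology

namespace Pool.Agent.NH28.QP

private theorem mp_inj_RED : Function.Injective mp := by
  unfold mp
  exact MvPolynomial.map_injective _ (algebraMap ℚ Qb).injective

private theorem ev_C_mul_RED (x : Fin 3 → ℤ) (a : Qb) (g : PQ) : ev x (C a * g) = a * ev x g := by
  unfold ev
  rw [map_mul, eval_C]

/-- QP-RED -/
theorem t_RED (h1 : S_CRV) (h2 : S_HOM) (h3 : S_RTL) : S_RED := by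
  intro G0 t hG hG0 q P hP hPP Φ0 c hc hΦ S hS W hW ε hε
  have hGm : (mp G0).IsHomogeneous t := hG.map _
  have hGne : mp G0 ≠ 0 := by
    intro h
    apply hG0
    apply mp_inj_RED
    rw [h]
    unfold mp
    rw [map_zero]
  obtain ⟨s, hs, hcov⟩ := h2 (mp G0) t hGm hGne
  refine Set.Finite.subset (Set.Finite.biUnion s.finite_toSet (t := fun g =>
    {x : Fin 3 → ℤ | Prm x ∧ ev x g = 0 ∧ ev x (mp Φ0) ≠ 0 ∧
      (4 + ε) * Real.log (Hx x) < ∑ v ∈ Tp S, lam W v (q + 2) (mp Φ0) x}) ?_) ?_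
  · intro g hg
    obtain ⟨hgi, d, hgd⟩ := hs g (Finset.mem_coe.1 hg)
    rcases h3 g d hgd hgi with hfin | ⟨F0, c', hc', hF0, hF⟩
    · exact hfin.subset fun x hx => ⟨hx.1, hx.2.1⟩
    · have hunit : IsUnit (C c' : PQ) := (isUnit_iff_ne_zero.2 hc').map C
      have hirr : Irreducible (mp F0) := by
        rw [hF]
        exact (irreducible_isUnit_mul hunit).2 hgi
      by_cases hdvd : mp F0 ∣ mp Φ0
      · refine Set.Finite.subset Set.finite_empty fun x hx => ?_
        exfalso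
        apply hx.2.2.1
        obtain ⟨R, hR⟩ := hdvd
        rw [hR, hF]
        unfold ev
        rw [map_mul, map_mul]
        have h0 : eval (fun i => ((x i : ℤ) : Qb)) g = 0 := hx.2.1
        rw [h0, mul_zero, zero_mul]
      · refine (h1 F0 d hF0 hirr q P hP hPP Φ0 c hc hΦ hdvd S hS W hW ε hε).subset
          fun x hx => ⟨hx.1, ?_, hx.2.2.1, hx.2.2.2⟩
        rw [hF, ev_C_mul_RED, hx.2.1, mul_zero]
  · intro x hx
    obtain ⟨g, hg, hgx⟩ := hcov x hx.2.1
    rw [Set.mem_iUnion₂]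
    exact ⟨g, Finset.mem_coe.2 hg, hx.1, hgx, hx.2.2.1, hx.2.2.2⟩

end Pool.Agent.NH28.QP
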