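import Pool.Agent.NH28.QP.Stm

/-!
# A curve with infinitely many rational points is rational (QP-RTL)
-/

set_option autoImplicit false

open MvPolynomial Filter Topology

namespace Pool.Agent.NH28.QP

namespace RTL

/-- the polynomial with the coefficients `φ (coeff m g)` -/
noncomputable def ap (φ : Qb →ₗ[ℚ] ℚ) (g : PQ) : MvPolynomial (Fin 3) ℚ :=
  ∑ m ∈ g.support, monomial m (φ (coeff m g))

lemma coeff_ap (φ : Qb →ₗ[ℚ] ℚ) (g : PQ) (m : Fin 3 →₀ ℕ) :
    coeff m (ap φ g) = φ (coeff m g) := by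
  classical
  unfold ap
  rw [coeff_sum]
  simp only [coeff_monomial]
  rw [Finset.sum_ite_eq']
  split_ifs with h
  · rfl
  · rw [notMem_support_iff.1 h, map_zero]

lemma hom_ap (φ : Qb →ₗ[ℚ] ℚ) {g : PQ} {d : ℕ} (hg : g.IsHomogeneous d) :
    (ap φ g).IsHomogeneous d := by
  intro m hm
  rw [coeff_ap] at hm
  exact hg fun h => hm (by rw [h, map_zero])

lemma ev_ap (φ : Qb →ₗ[ℚ] ℚ) (g : PQ) (x : Fin 3 → ℤ) :
    ev x (mp (ap φ g)) = algebraMap ℚ Qb (φ (ev x g)) := by
  have h1 : ev x g = ∑ m ∈ g.support, (∏ i, ((x i : ℤ) : ℚ) ^ m i) • coeff m g := by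
    unfold ev
    rw [eval_eq']
    refine Finset.sum_congr rfl fun m _ => ?_
    rw [Algebra.smul_def, map_prod, mul_comm]
    congr 1
    refine Finset.prod_congr rfl fun i _ => ?_
    rw [map_pow, map_intCast]
  have h2 : ev x (mp (ap φ g)) =
      ∑ m ∈ g.support, algebraMap ℚ Qb (φ (coeff m g)) * ∏ i, ((x i : ℤ) : Qb) ^ m i := by
    unfold ev mp ap
    rw [map_sum, map_sum]
    refine Finset.sum_congr rfl fun m _ => ?_
    rw [map_monomial, eval_monomial]
    congr 1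
    exact Finsupp.prod_fintype _ _ fun i => pow_zero _
  rw [h1, h2, map_sum, map_sum]
  refine Finset.sum_congr rfl fun m _ => ?_
  rw [map_smul, smul_eq_mul, map_mul, map_prod, mul_comm]
  congr 1
  refine Finset.prod_congr rfl fun i _ => ?_
  rw [map_pow, map_intCast]

end RTL

open RTL in
theorem t_RTL (h : S_FIN) : S_RTL := by
  intro g d hg hirr
  have hg0 : g ≠ 0 := hirr.ne_zero
  obtain ⟨m, hm⟩ := ne_zero_iff.1 hg0
  obtain ⟨φ, hφ⟩ : ∃ φ : Qb →ₗ[ℚ] ℚ, φ (coeff m g) ≠ 0 := by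
    by_contra hcon
    push Not at hcon
    exact hm ((Module.forall_dual_apply_eq_zero_iff ℚ (coeff m g)).1 hcon)
  have hhom := hom_ap φ hg
  have hinj : Function.Injective (algebraMap ℚ Qb) := (algebraMap ℚ Qb).injective
  have hmp : (mp (ap φ g)).IsHomogeneous d := hhom.map _
  have hne : mp (ap φ g) ≠ 0 := by
    intro h0
    have h1 := congrArg (coeff m) h0
    unfold mp at h1
    rw [coeff_map, coeff_ap, coeff_zero] at h1
    exact hφ (hinj (by rw [h1, map_zero]))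
  by_cases hdvd : g ∣ mp (ap φ g)
  · right
    obtain ⟨u, hu⟩ := hdvd
    have hu0 : u ≠ 0 := fun h0 => hne (by rw [hu, h0, mul_zero])
    have h1 := totalDegree_mul_of_isDomain hg0 hu0
    rw [← hu, hmp.totalDegree hne, hg.totalDegree hg0] at h1
    have h2 : u.totalDegree = 0 := by omega
    have h3 := totalDegree_eq_zero_iff_eq_C.1 h2
    refine ⟨ap φ g, coeff 0 u, fun h0 => hu0 (by rw [h3, h0, map_zero]), hhom, ?_⟩
    rw [← h3, hu, mul_comm]
  · left
    refine (h g d hg hirr d (mp (ap φ g)) ⟨hmp, hdvd⟩).subset ?_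
    rintro x ⟨hx1, hx2⟩
    exact ⟨hx1, hx2, by rw [ev_ap, hx2, map_zero, map_zero]⟩

end Pool.Agent.NH28.QP
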