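import Pool.Agent.NH28.QP.Stm

/-!
QP-ST: the subspace theorem for the limits.
-/

set_option autoImplicit false

open MvPolynomial Filter Topology

namespace Pool.Agent.NH28.QP

namespace ST45

/-- the monomials at an integer point -/
noncomputable def yv {M : ℕ} (e : Fin M → (Fin 3 →₀ ℕ)) (x : Fin 3 → ℤ) (i : Fin M) : ℤ :=
  (e i).prod fun r m => x r ^ m

theorem ev_mono {M : ℕ} (e : Fin M → (Fin 3 →₀ ℕ)) (x : Fin 3 → ℤ) (i : Fin M) (c : Qb) :
    ev x (monomial (e i) c) = c * (yv e x i : Qb) := by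
  unfold ev yv
  rw [eval_monomial]
  congr 1
  unfold Finsupp.prod
  push_cast
  rfl

theorem ev_sum {M : ℕ} (e : Fin M → (Fin 3 →₀ ℕ)) (x : Fin 3 → ℤ) (a : Fin M → Qb) :
    ev x (∑ i, monomial (e i) (a i)) = ∑ i, a i * (yv e x i : Qb) := by
  have h : ev x (∑ i, monomial (e i) (a i)) = ∑ i, ev x (monomial (e i) (a i)) := by
    unfold ev
    rw [map_sum]
  rw [h]
  exact Finset.sum_congr rfl fun i _ => ev_mono e x i (a i)

theorem ev_congr {F g h : PQ} {x : Fin 3 → ℤ} (hF : ev x F = 0) (hd : F ∣ g - h) :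
    ev x g = ev x h := by
  obtain ⟨q, hq⟩ := hd
  unfold ev at *
  have h1 := congrArg (MvPolynomial.eval (fun i => ((x i : ℤ) : Qb))) hq
  rw [map_mul, hF, zero_mul, map_sub] at h1
  exact sub_eq_zero.1 h1

theorem le_Hx {m : ℕ} (x : Fin m → ℤ) (i : Fin m) : |(x i : ℝ)| ≤ Hx x :=
  le_ciSup (f := fun i => |(x i : ℝ)|) (Set.finite_range _).bddAbove i

theorem Hx_nonneg {m : ℕ} (x : Fin m → ℤ) : 0 ≤ Hx x := Real.iSup_nonneg fun _ => abs_nonneg _

theorem one_le_Hx {m : ℕ} {x : Fin m → ℤ} (hx : x ≠ 0) : 1 ≤ Hx x := by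
  obtain ⟨i, hi⟩ := Function.ne_iff.1 hx
  refine le_trans ?_ (le_Hx x i)
  have h : (1 : ℤ) ≤ |x i| := Int.one_le_abs hi
  exact_mod_cast h

theorem prm_ne {x : Fin 3 → ℤ} (h : Prm x) : x ≠ 0 := by
  rintro rfl
  exact not_isUnit_zero (h 0 fun i => dvd_refl _)

theorem exists_nv {S : Finset ℕ} (hS : ∀ p ∈ S, p.Prime) {W : Option ℕ → AbsoluteValue Qb ℝ}
    (hW : Gd S W) {v : Option ℕ} (hv : v ∈ Tp S) {x : Fin 3 → ℤ} (hx : Prm x) :
    ∃ r, W v ((x r : ℤ) : Qb) = nv v x := by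
  rcases v with _ | p
  · obtain ⟨r, hr⟩ := exists_eq_ciSup_of_finite (f := fun i => |(x i : ℝ)|)
    refine ⟨r, ?_⟩
    have h1 := hW.inf (x r : ℚ)
    rw [map_intCast] at h1
    rw [h1, Rat.cast_intCast]
    exact hr
  · have hp : p ∈ S := by
      unfold Tp at hv
      simpa using hv
    have hf : Fact p.Prime := ⟨hS p hp⟩
    obtain ⟨r, hr⟩ : ∃ r, ¬ (p : ℤ) ∣ x r := by
      by_contra hc
      push Not at hc
      exact (Nat.prime_iff_prime_int.1 (hS p hp)).not_isUnit (hx p hc)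
    refine ⟨r, ?_⟩
    have h1 := hW.fin p hp (x r : ℚ)
    rw [map_intCast] at h1
    rw [h1, (padicNorm.int_eq_one_iff _).2 hr]
    show ((1 : ℚ) : ℝ) = 1
    norm_num

theorem nv_pos {v : Option ℕ} {x : Fin 3 → ℤ} (hx : Prm x) : 0 < nv v x := by
  rcases v with _ | p
  · exact zero_lt_one.trans_le (one_le_Hx (prm_ne hx))
  · exact zero_lt_one

theorem Hx_yv {M N : ℕ} {e : Fin M → (Fin 3 →₀ ℕ)} (he : ∀ i, (e i).degree = N)
    (x : Fin 3 → ℤ) : Hx (yv e x) ≤ Hx x ^ N := by
  refine Real.iSup_le (fun i => ?_) (pow_nonneg (Hx_nonneg x) N)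
  unfold yv Finsupp.prod
  push_cast
  rw [Finset.abs_prod]
  calc ∏ r ∈ (e i).support, |(x r : ℝ) ^ (e i r)| ≤ ∏ r ∈ (e i).support, Hx x ^ (e i r) := by
        refine Finset.prod_le_prod (fun r _ => abs_nonneg _) fun r _ => ?_
        rw [abs_pow]
        exact pow_le_pow_left₀ (abs_nonneg _) (le_Hx x r) _
    _ = Hx x ^ N := by
        rw [Finset.prod_pow_eq_pow_sum]
        congr 1
        rw [← he i, Finsupp.degree_apply]

theorem lower {F0 : MvPolynomial (Fin 3) ℚ} {S : Finset ℕ} (hS : ∀ p ∈ S, p.Prime)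
    {W : Option ℕ → AbsoluteValue Qb ℝ} (hW : Gd S W) {M N : ℕ} {e : Fin M → (Fin 3 →₀ ℕ)}
    (a : Fin 3 → Fin M → Qb) (ha : ∀ r, mp F0 ∣ X r ^ N - ∑ i, monomial (e i) (a r i))
    (v : Option ℕ) : ∃ c : ℝ, v ∈ Tp S → ∀ x, Prm x → ev x (mp F0) = 0 →
      0 < (⨆ i, W v (yv e x i : Qb)) ∧
      N * Real.log (nv v x) - c ≤ Real.log (⨆ i, W v (yv e x i : Qb)) := by
  set A : ℝ := 1 + ∑ r, ∑ i, W v (a r i) with hA
  have hs : 0 ≤ ∑ r, ∑ i, W v (a r i) :=
    Finset.sum_nonneg fun r _ => Finset.sum_nonneg fun i _ => (W v).nonneg _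
  have hA1 : 1 ≤ A := by linarith
  refine ⟨Real.log A, fun hv x hx h0 => ?_⟩
  set m := ⨆ i, W v (yv e x i : Qb) with hm
  obtain ⟨r, hr⟩ := exists_nv hS hW hv hx
  have hm0 : 0 ≤ m := Real.iSup_nonneg fun _ => (W v).nonneg _
  have h1 : ev x (X r ^ N) = ∑ i, a r i * (yv e x i : Qb) :=
    (ev_congr h0 (ha r)).trans (ev_sum e x (a r))
  have h2 : ev x (X r ^ N) = ((x r : ℤ) : Qb) ^ N := by
    unfold ev
    rw [map_pow, eval_X]
  have h3 : nv v x ^ N ≤ A * m := by
    rw [← hr, ← map_pow, ← h2, h1]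
    calc W v (∑ i, a r i * (yv e x i : Qb)) ≤ ∑ i, W v (a r i * (yv e x i : Qb)) :=
          AbsoluteValue.sum_le (W v) _ _
      _ ≤ ∑ i, W v (a r i) * m := Finset.sum_le_sum fun i _ => by
          rw [map_mul]
          exact mul_le_mul_of_nonneg_left
            (le_ciSup (f := fun i => W v (yv e x i : Qb)) (Set.finite_range _).bddAbove i)
            ((W v).nonneg _)
      _ = (∑ i, W v (a r i)) * m := (Finset.sum_mul _ _ _).symm
      _ ≤ A * m := by
          refine mul_le_mul_of_nonneg_right ?_ hm0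
          have h := Finset.single_le_sum (f := fun r => ∑ i, W v (a r i))
            (fun r _ => Finset.sum_nonneg fun i _ => (W v).nonneg _) (Finset.mem_univ r)
          linarith
  have hnv : 0 < nv v x := nv_pos hx
  have h4 : 0 < A * m := (pow_pos hnv N).trans_le h3
  have h5 : 0 < m := by
    rcases hm0.lt_or_eq with h | h
    · exact h
    · rw [← h, mul_zero] at h4
      exact absurd h4 (lt_irrefl _)
  refine ⟨h5, ?_⟩
  have h6 := Real.log_le_log (pow_pos hnv N) h3
  rw [Real.log_pow, Real.log_mul (by linarith) h5.ne'] at h6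
  linarith

theorem ev_ne (h3 : S_FIN) {F : PQ} {d n : ℕ} {g : PQ} (hF : F.IsHomogeneous d)
    (hirr : Irreducible F) (hg : Fm F n g) {x : ℕ → Fin 3 → ℤ} (hinj : Function.Injective x)
    (hprm : ∀ j, Prm (x j)) (hz : ∀ j, ev (x j) F = 0) {U : Ultrafilter ℕ}
    (hU : (U : Filter ℕ) ≤ cofinite) : ∀ᶠ j in (U : Filter ℕ), ev (x j) g ≠ 0 := by
  have h1 := h3 F d hF hirr n g hg
  have h2 : {j : ℕ | ev (x j) g = 0}.Finite := by
    refine Set.Finite.subset (h1.preimage hinj.injOn) ?_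
    intro j hj
    exact ⟨hprm j, hz j, hj⟩
  exact h2.eventually_cofinite_notMem.filter_mono hU

end ST45

open ST45 in
/-- QP-ST -/
theorem t_ST (h1 : S_SUB) (h2 : S_BAS) (h3 : S_FIN) (h4 : S_HT) : S_ST := by
  classical
  intro F0 d hF0 hirr S hS W hW x hx U hU w hw T' hT' N M hdN hM b hbh hbi
  have hF0n : F0 ≠ 0 := by
    rintro rfl
    apply hirr.ne_zero
    unfold mp
    rw [map_zero]
  have hFh : (mp F0).IsHomogeneous d := hF0.map _
  obtain ⟨M', e, hM', he, hb⟩ := h2 ℚ F0 d hF0 hF0n N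
  have hMM : M' = M := by
    have := hM' hdN
    linarith
  subst hMM
  rcases Nat.eq_zero_or_pos M' with h0 | hMpos
  · subst h0
    simp
  -- the matrices
  have hL : ∀ v, ∃ Lv : Matrix (Fin M') (Fin M') Qb, v ∈ T' →
      ∀ j, mp F0 ∣ b v j - ∑ i, monomial (e i) (Lv j i) := by
    intro v
    by_cases hv : v ∈ T'
    · have h5 : ∀ j, ∃ a : Fin M' → Qb, mp F0 ∣ b v j - ∑ i, monomial (e i) (a i) :=
        fun j => (hb Qb (b v j) (hbh v hv j)).exists
      choose a ha using h5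
      exact ⟨Matrix.of a, fun _ j => ha j⟩
    · exact ⟨0, fun h => absurd h hv⟩
  choose L hL using hL
  have hdet : ∀ v ∈ T', (L v).det ≠ 0 := by
    intro v hv hd
    obtain ⟨a, ha0, ha⟩ := Matrix.exists_vecMul_eq_zero_iff.2 hd
    apply ha0
    apply hbi v hv a
    have h5 : ∑ j, C (a j) * b v j =
        ∑ j, C (a j) * (b v j - ∑ i, monomial (e i) (L v j i)) := by
      have h6 : ∑ j, C (a j) * ∑ i, monomial (e i) (L v j i) = 0 := by
        simp only [Finset.mul_sum, C_mul_monomial]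
        rw [Finset.sum_comm]
        refine Finset.sum_eq_zero fun i _ => ?_
        rw [← map_sum]
        have h7 : ∑ j, a j * L v j i = 0 := congrFun ha i
        rw [h7, map_zero]
      simp only [mul_sub, Finset.sum_sub_distrib]
      rw [h6, sub_zero]
    rw [h5]
    exact Finset.dvd_sum fun j _ => (hL v hv j).mul_left _
  have hevb : ∀ l, ∀ v ∈ T', ∀ j,
      ev (x l) (b v j) = ∑ i, L v j i * (yv e (x l) i : Qb) := fun l v hv j =>
    (ev_congr (hx.zer l) (hL v hv j)).trans (ev_sum e (x l) _)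
  have haX : ∀ r : Fin 3, ∃ a : Fin M' → Qb, mp F0 ∣ X r ^ N - ∑ i, monomial (e i) (a i) :=
    fun r => (hb Qb (X r ^ N) (by simpa using (isHomogeneous_X Qb r).pow N)).exists
  choose aX haX using haX
  choose cl hcl using fun v => lower hS hW aX haX v
  have hbF : ∀ v ∈ T', ∀ j, Fm (mp F0) N (b v j) := by
    intro v hv j
    refine ⟨hbh v hv j, fun hd => ?_⟩
    have h5 := hbi v hv (Pi.single j 1) (by
      rw [Finset.sum_eq_single j]
      · rw [Pi.single_eq_same, C_1, one_mul]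
        exact hd
      · intro i _ hi
        rw [Pi.single_eq_of_ne hi, C_0, zero_mul]
      · intro h
        exact absurd (Finset.mem_univ _) h)
    have h6 := congrFun h5 j
    rw [Pi.single_eq_same] at h6
    exact one_ne_zero h6
  have main : ∀ ε : ℝ, 0 < ε → ∑ v ∈ T', ∑ j, w v (b v j) ≤ (M' + ε) * N := by
    intro ε hε
    obtain ⟨Z, hZ0, c, hc⟩ := h1 S hS W hW T' hT' M' hMpos L hdet ε hε
    have hZ : ∀ᶠ l in (U : Filter ℕ), ∀ z ∈ Z, ∑ j, z j * (yv e (x l) j : ℚ) ≠ 0 := by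
      rw [Finset.eventually_all]
      intro z hz
      have hFz : Fm (mp F0) N (∑ i, monomial (e i) (algebraMap ℚ Qb (z i))) := by
        refine ⟨?_, fun hd => ?_⟩
        · exact IsHomogeneous.sum _ _ _ fun i _ => isHomogeneous_monomial _ (he i)
        · have h5 := (hb Qb 0 (isHomogeneous_zero _ _ _)).unique
            (y₁ := fun i => algebraMap ℚ Qb (z i)) (y₂ := 0)
            (by rw [zero_sub, dvd_neg]; exact hd) (by simp)
          apply hZ0 z hz
          funext i
          exact (map_eq_zero (algebraMap ℚ Qb)).1 (congrFun h5 i)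
      filter_upwards [ev_ne h3 hFh hirr hFz hx.inj hx.prm hx.zer hU] with l hl h0
      apply hl
      rw [ev_sum]
      have h7 := congrArg (algebraMap ℚ Qb) h0
      rw [map_sum, map_zero] at h7
      rw [← h7]
      refine Finset.sum_congr rfl fun j _ => ?_
      rw [map_mul, map_intCast]
    have hbne : ∀ᶠ l in (U : Filter ℕ), ∀ v ∈ T', ∀ j, ev (x l) (b v j) ≠ 0 := by
      rw [Finset.eventually_all]
      intro v hv
      rw [Filter.eventually_all]
      exact fun j => ev_ne h3 hFh hirr (hbF v hv j) hx.inj hx.prm hx.zer hU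
    have hlog : Tendsto (fun l => Real.log (Hx (x l))) (U : Filter ℕ) atTop :=
      (h4 x hx.inj).mono_left hU
    set c' : ℝ := c + M' * ∑ v ∈ T', cl v with hc'
    have hineq : ∀ᶠ l in (U : Filter ℕ), ∑ v ∈ T', ∑ j, lam W v N (b v j) (x l) ≤
        (M' + ε) * N * Real.log (Hx (x l)) + c' := by
      filter_upwards [hZ, hbne] with l hl1 hl2
      have hy : yv e (x l) ≠ 0 := by
        intro h0
        have h5 := (hcl none (by simp [Tp]) (x l) (hx.prm l) (hx.zer l)).1
        rw [h0] at h5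
        simp at h5
      have h6 := hc (yv e (x l)) hy hl1
        (fun v hv a => by rw [← hevb l v hv a]; exact hl2 v hv a)
      have h7 : ∑ v ∈ T', ∑ j, (lam W v N (b v j) (x l) - cl v) ≤
          ∑ v ∈ T', ∑ a, (Real.log (⨆ j, W v (yv e (x l) j : Qb)) -
            Real.log (W v (∑ j, L v a j * (yv e (x l) j : Qb)))) := by
        refine Finset.sum_le_sum fun v hv => Finset.sum_le_sum fun j _ => ?_
        rw [← hevb l v hv j]
        have := (hcl v (hT' hv) (x l) (hx.prm l) (hx.zer l)).2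
        unfold lam
        linarith
      have h8 : Real.log (Hx (yv e (x l))) ≤ N * Real.log (Hx (x l)) := by
        rw [← Real.log_pow]
        exact Real.log_le_log (zero_lt_one.trans_le (one_le_Hx hy)) (Hx_yv he (x l))
      have h9 : ∑ v ∈ T', ∑ j, (lam W v N (b v j) (x l) - cl v) =
          ∑ v ∈ T', ∑ j, lam W v N (b v j) (x l) - M' * ∑ v ∈ T', cl v := by
        simp only [Finset.sum_sub_distrib, Finset.sum_const, Finset.card_univ, Fintype.card_fin,
          nsmul_eq_mul, Finset.mul_sum]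
      have h10 : (M' + ε) * Real.log (Hx (yv e (x l))) ≤
          (M' + ε) * (N * Real.log (Hx (x l))) := mul_le_mul_of_nonneg_left h8 (by positivity)
      have h11 : (M' + ε) * N * Real.log (Hx (x l)) = (M' + ε) * (N * Real.log (Hx (x l))) := by
        ring
      rw [h11]
      linarith
    have hlim1 : Tendsto (fun l => ∑ v ∈ T', ∑ j, lam W v N (b v j) (x l) / Real.log (Hx (x l)))
        (U : Filter ℕ) (𝓝 (∑ v ∈ T', ∑ j, w v (b v j))) :=
      tendsto_finsetSum _ fun v hv => tendsto_finsetSum _ fun j _ =>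
        hw v (hT' hv) N (b v j) (hbF v hv j)
    have hlim2 : Tendsto (fun l => (M' + ε) * N + c' / Real.log (Hx (x l))) (U : Filter ℕ)
        (𝓝 ((M' + ε) * N + 0)) := tendsto_const_nhds.add (tendsto_const_nhds.div_atTop hlog)
    rw [add_zero] at hlim2
    refine le_of_tendsto_of_tendsto hlim1 hlim2 ?_
    filter_upwards [hineq, hlog.eventually_gt_atTop 0] with l hl1 hl2
    have h12 : ∑ v ∈ T', ∑ j, lam W v N (b v j) (x l) / Real.log (Hx (x l)) =
        (∑ v ∈ T', ∑ j, lam W v N (b v j) (x l)) / Real.log (Hx (x l)) := by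
      simp only [← Finset.sum_div]
    rw [h12, div_le_iff₀ hl2, add_mul, div_mul_cancel₀ _ hl2.ne']
    exact hl1
  refine le_of_forall_pos_le_add fun δ hδ => ?_
  have h5 := main (δ / (N + 1)) (by positivity)
  have h6 : δ / (N + 1) * N ≤ δ := by
    rw [div_mul_eq_mul_div, div_le_iff₀ (by positivity)]
    nlinarith
  nlinarith

end Pool.Agent.NH28.QP
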