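import Mathlib

/-!
Absolute values of a Galois number field which agree on the rational numbers are conjugate.
-/

set_option autoImplicit false

namespace Pool.Agent.NH28.QP

open Finset Filter Topology

/-- an element which is large for one absolute value and small for finitely many others -/
theorem large_small_sub {K : Type} [Field K] {ι : Type} [Finite ι] (g : AbsoluteValue K ℝ)
    (v : ι → AbsoluteValue K ℝ) (hg : g.IsNontrivial) (hv : ∀ i, (v i).IsNontrivial)
    (hne : ∀ i, ¬ g.IsEquiv (v i)) : ∃ a : K, 1 < g a ∧ ∀ i, v i a < 1 := by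
  classical
  let s : Setoid ι := Setoid.comap v inferInstance
  let u : Option (Quotient s) → AbsoluteValue K ℝ := fun o => o.elim g (fun q => v q.out)
  have h1 : ∀ o, (u o).IsNontrivial := by
    rintro (_ | q)
    · exact hg
    · exact hv _
  have h2 : Pairwise fun i j => ¬ (u i).IsEquiv (u j) := by
    rintro (_ | q) (_ | q') hne'
    · exact absurd rfl hne'
    · exact hne _
    · exact fun h => hne _ h.symm
    · intro h
      apply hne'
      have h3 : s.r q.out q'.out := h
      have h4 : (Quotient.mk s q.out) = Quotient.mk s q'.out := Quotient.sound h3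
      rw [Quotient.out_eq, Quotient.out_eq] at h4
      rw [h4]
  obtain ⟨a, ha, hb⟩ := AbsoluteValue.exists_one_lt_lt_one_pi_of_not_isEquiv h1 h2 none
  refine ⟨a, ha, fun i => ?_⟩
  have h3 := hb (some (Quotient.mk s i)) (by simp)
  have h4 : (v (Quotient.mk s i).out).IsEquiv (v i) := by
    have h5 : Quotient.mk s (Quotient.mk s i).out = Quotient.mk s i := Quotient.out_eq _
    exact Quotient.exact h5
  exact h4.lt_one_iff.1 h3

/-- conjugate absolute values -/
theorem conj_abs_sub {K : Type} [Field K] [NumberField K] [IsGalois ℚ K] (f g : AbsoluteValue K ℝ)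
    (hfg : ∀ r : ℚ, f (algebraMap ℚ K r) = g (algebraMap ℚ K r)) (r0 : ℚ) (hr0 : r0 ≠ 0)
    (hr1 : f (algebraMap ℚ K r0) ≠ 1) : ∃ σ : K ≃ₐ[ℚ] K, ∀ x, f x = g (σ x) := by
  classical
  by_contra hcon
  push Not at hcon
  have hr0' : algebraMap ℚ K r0 ≠ 0 := (map_ne_zero _).2 hr0
  let v : (K ≃ₐ[ℚ] K) → AbsoluteValue K ℝ := fun σ =>
    f.comp (f := (σ : K →+* K)) (σ : K →+* K).injective
  have hvap : ∀ σ x, v σ x = f (σ x) := fun σ x => rfl
  have hg : g.IsNontrivial := ⟨_, hr0', by rw [← hfg]; exact hr1⟩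
  have hv : ∀ σ, (v σ).IsNontrivial := fun σ => ⟨_, hr0', by
    rw [hvap, AlgEquiv.commutes]; exact hr1⟩
  have hne : ∀ σ, ¬ g.IsEquiv (v σ) := by
    intro σ h
    obtain ⟨c, hc, hcv⟩ := AbsoluteValue.isEquiv_iff_exists_rpow_eq.1 h
    have h1 := congrFun hcv (algebraMap ℚ K r0)
    rw [hvap, AlgEquiv.commutes, hfg] at h1
    have hpos : 0 < g (algebraMap ℚ K r0) := g.pos hr0'
    have hne1 : g (algebraMap ℚ K r0) ≠ 1 := by rw [← hfg]; exact hr1
    have h2 := congrArg Real.log h1
    rw [Real.log_rpow hpos] at h2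
    have hl : Real.log (g (algebraMap ℚ K r0)) ≠ 0 := Real.log_ne_zero_of_pos_of_ne_one hpos hne1
    have hc1 : c = 1 := by
      have : (c - 1) * Real.log (g (algebraMap ℚ K r0)) = 0 := by linarith
      rcases mul_eq_zero.1 this with h | h
      · linarith
      · exact absurd h hl
    obtain ⟨x, hx⟩ := hcon σ.symm
    apply hx
    have h3 := congrFun hcv (σ.symm x)
    rw [hc1, Real.rpow_one, hvap, AlgEquiv.apply_symm_apply] at h3
    exact h3.symm
  obtain ⟨a, ha, hb⟩ := large_small_sub g v hg hv hne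
  -- the trace
  let B := Algebra.traceForm ℚ K
  have hB : B.Nondegenerate := traceForm_nondegenerate ℚ K
  let b := Module.finBasis ℚ K
  let b' := B.dualBasis hB b
  have hexp : ∀ x : K, x = ∑ i, (Algebra.trace ℚ K (x * b i)) • b' i := by
    intro x
    conv_lhs => rw [← b'.sum_repr x]
    refine Finset.sum_congr rfl fun i _ => ?_
    rw [LinearMap.BilinForm.dualBasis_repr_apply]
    rfl
  have hbound : ∀ n : ℕ, 1 ≤ ∑ i, (∑ σ : K ≃ₐ[ℚ] K, f (σ a) ^ n * f (σ (b i))) * g (b' i) := by
    intro n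
    have h1 : (1 : ℝ) ≤ g (a ^ n) := by
      rw [map_pow]
      exact one_le_pow₀ ha.le
    refine h1.trans ?_
    conv_lhs => rw [hexp (a ^ n)]
    refine (g.sum_le _ _).trans (Finset.sum_le_sum fun i _ => ?_)
    rw [Algebra.smul_def, map_mul]
    refine mul_le_mul_of_nonneg_right ?_ (g.nonneg _)
    rw [← hfg, trace_eq_sum_automorphisms]
    refine (f.sum_le _ _).trans (Finset.sum_le_sum fun σ _ => ?_)
    rw [map_mul, map_mul, map_pow, map_pow]
  have hlim : Tendsto (fun n : ℕ => ∑ i, (∑ σ : K ≃ₐ[ℚ] K, f (σ a) ^ n * f (σ (b i))) * g (b' i))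
      atTop (𝓝 (∑ i, (∑ σ : K ≃ₐ[ℚ] K, 0 * f (σ (b i))) * g (b' i))) := by
    refine tendsto_finsetSum _ fun i _ => Tendsto.mul_const _ ?_
    refine tendsto_finsetSum _ fun σ _ => Tendsto.mul_const _ ?_
    exact tendsto_pow_atTop_nhds_zero_of_lt_one (f.nonneg _) (hb σ)
  have h0 : ∑ i, (∑ σ : K ≃ₐ[ℚ] K, 0 * f (σ (b i))) * g (b' i) = 0 := by
    simp
  rw [h0] at hlim
  have := ge_of_tendsto' hlim hbound
  linarith

theorem isAlg_sub : IsAlgClosure ℚ (AlgebraicClosure ℚ) := by
  have h : (DivisionRing.toRatAlgebra : Algebra ℚ (AlgebraicClosure ℚ)) =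
      AlgebraicClosure.instAlgebra ℚ := Subsingleton.elim _ _
  rw [h]
  infer_instance

/-- a Galois number field which contains given algebraic numbers -/
theorem big_field_sub (s : Finset (AlgebraicClosure ℚ)) : ∃ (K : Type) (_ : Field K)
    (_ : NumberField K) (_ : IsGalois ℚ K) (φ : K →+* AlgebraicClosure ℚ),
    ∀ z ∈ s, ∃ a, φ a = z := by
  classical
  have : IsAlgClosure ℚ (AlgebraicClosure ℚ) := isAlg_sub
  have : IsGalois ℚ (AlgebraicClosure ℚ) := IsAlgClosure.isGalois ℚ (AlgebraicClosure ℚ)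
  let E := FiniteGaloisIntermediateField.adjoin ℚ (s : Set (AlgebraicClosure ℚ))
  let K := E.toIntermediateField
  have h1 : FiniteDimensional ℚ K := E.finiteDimensional
  have h2 : IsGalois ℚ K := E.isGalois
  have e : (DivisionRing.toRatAlgebra : Algebra ℚ K) = K.algebra' := Subsingleton.elim _ _
  have h4 : @FiniteDimensional ℚ K _ _ (DivisionRing.toRatAlgebra : Algebra ℚ K).toModule := by
    rw [e]
    exact h1
  have h5 : @IsGalois ℚ _ K _ DivisionRing.toRatAlgebra := by
    rw [e]
    exact h2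
  have h3 : NumberField K := @NumberField.mk K _ inferInstance h4
  refine ⟨K, inferInstance, h3, h5, (algebraMap K (AlgebraicClosure ℚ)), fun z hz => ?_⟩
  have h4 : z ∈ E.toIntermediateField :=
    FiniteGaloisIntermediateField.subset_adjoin ℚ (s : Set (AlgebraicClosure ℚ)) (by exact_mod_cast hz)
  exact ⟨⟨z, h4⟩, rfl⟩

end Pool.Agent.NH28.QP
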