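import Pool.Agent.NH28.QP.Stm
import Pool.Agent.NH28.QP.SUB1
import Pool.Agent.NH28.QD8

/-!
The subspace theorem over the rational numbers with algebraic coefficients.
-/

set_option autoImplicit false

namespace Pool.Agent.NH28.QP

open Finset NumberField IsDedekindDomain Height Module
open Pool.Agent.W180.OP (Pl av wt nrm le_nrm nrm_pos nrm_nonneg exists_nrm wt_nonneg nrm_le)
open Pool.Agent.R405 (exv exv_ne dot schV Good exists_good)
open Pool.Agent.R405.AQ (T0 mem_T0 mem_Pls_inr sum_T0 fin_int_le inf_int wt_rat wt_one)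

theorem fin_int_sub {p : ℕ} (hp : p.Prime) {v : HeightOneSpectrum (𝓞 ℚ)}
    (hv : (p : 𝓞 ℚ) ∈ v.asIdeal) (n : ℤ) (hn : n ≠ 0) :
    av (Sum.inr v : Pl ℚ) (n : ℚ) = ((padicNorm p (n : ℚ) : ℚ) : ℝ) := by
  have : Fact p.Prime := ⟨hp⟩
  have h1 := Pool.Agent.NH28.pl_log hp hv n hn
  have hn' : (n : ℚ) ≠ 0 := by exact_mod_cast hn
  have h2 : 0 < av (Sum.inr v : Pl ℚ) (n : ℚ) := (av _).pos_iff.2 hn'
  have hp0 : (0 : ℝ) < p := by exact_mod_cast hp.pos
  rw [← Real.exp_log h2, h1, padicNorm.eq_zpow_of_nonzero hn', padicValRat.of_int]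
  push_cast
  rw [zpow_neg, zpow_natCast, Real.exp_neg, ← Real.rpow_natCast, Real.rpow_def_of_pos hp0,
    mul_comm]

theorem fin_norm_sub {p : ℕ} (hp : p.Prime) {v : HeightOneSpectrum (𝓞 ℚ)}
    (hv : (p : 𝓞 ℚ) ∈ v.asIdeal) (r : ℚ) :
    av (Sum.inr v : Pl ℚ) r = ((padicNorm p r : ℚ) : ℝ) := by
  have : Fact p.Prime := ⟨hp⟩
  by_cases hr : r = 0
  · rw [hr, map_zero, padicNorm.zero, Rat.cast_zero]
  have h1 := fin_int_sub hp hv r.num (Rat.num_ne_zero.2 hr)
  have h2 := fin_int_sub hp hv (r.den : ℤ) (by exact_mod_cast r.den_nz)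
  have h3 : r = (r.num : ℚ) / ((r.den : ℤ) : ℚ) := by
    rw [Int.cast_natCast]
    exact (Rat.num_div_den r).symm
  rw [h3, map_div₀, h1, h2, padicNorm.div, Rat.cast_div]

theorem inf_norm_sub (r : ℚ) : av (Sum.inl default : Pl ℚ) r = |(r : ℝ)| := by
  have h3 : r = (r.num : ℚ) / ((r.den : ℤ) : ℚ) := by
    rw [Int.cast_natCast]
    exact (Rat.num_div_den r).symm
  rw [h3, map_div₀, inf_int, inf_int, Rat.cast_div, abs_div]
  push_cast
  rfl

/-- (QP-SUB) -/
theorem t_SUB : S_SUB := by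
  classical
  intro S hS W hW T' hT' M hM L hL ε hε
  rcases T'.eq_empty_or_nonempty with hTe | ⟨v0, hv0⟩
  · refine ⟨∅, by simp, 0, fun y hy _ _ => ?_⟩
    rw [hTe, Finset.sum_empty, add_zero]
    refine mul_nonneg (by positivity) (Real.log_nonneg ?_)
    obtain ⟨j, hj⟩ := Function.ne_iff.1 hy
    have h1 : |(y j : ℝ)| ≤ Hx y :=
      le_ciSup (f := fun j => |(y j : ℝ)|) (Set.finite_range _).bddAbove j
    have h2 : (1 : ℝ) ≤ |(y j : ℝ)| := by
      have : (1 : ℤ) ≤ |y j| := Int.one_le_abs hj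
      exact_mod_cast this
    exact h2.trans h1
  -- the field
  obtain ⟨i0, hi0⟩ := IsAlgClosed.exists_pow_nat_eq (-1 : Qb) (n := 2) (by norm_num)
  obtain ⟨K, _, _, _, φ, hφ⟩ := big_field_sub (insert i0 (T'.biUnion fun v =>
    (univ : Finset (Fin M × Fin M)).image fun a => L v a.1 a.2))
  have hi : ∃ z : K, z ^ 2 = -1 := by
    obtain ⟨z, hz⟩ := hφ i0 (mem_insert_self _ _)
    refine ⟨z, φ.injective ?_⟩
    rw [map_pow, hz, hi0, map_neg, map_one]
  have hlift : ∀ (v : Option ℕ) (a j : Fin M), ∃ x : K, v ∈ T' → φ x = L v a j := by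
    intro v a j
    by_cases hv : v ∈ T'
    · obtain ⟨x, hx⟩ := hφ (L v a j) (mem_insert_of_mem (mem_biUnion.2 ⟨v, hv,
        mem_image.2 ⟨(a, j), mem_univ _, rfl⟩⟩))
      exact ⟨x, fun _ => hx⟩
    · exact ⟨0, fun h => absurd h hv⟩
  choose Lk hLk using hlift
  -- the places
  obtain ⟨vp, hvp, -, -⟩ := Pool.Agent.NH28.sum_places S hS
  let P : Option ℕ → Pl ℚ := fun o => o.elim (Sum.inl default) (fun p => Sum.inr (vp p))
  have hmemS : ∀ p : ℕ, some p ∈ Tp S → p ∈ S := by
    intro p hp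
    unfold Tp at hp
    rw [mem_insert, mem_image] at hp
    rcases hp with hp | ⟨a, ha, hap⟩
    · exact absurd hp (by simp)
    · rwa [← Option.some_inj.1 hap]
  have hP : ∀ v ∈ Tp S, ∀ r : ℚ, av (P v) r = W v (algebraMap ℚ Qb r) := by
    rintro (_ | p) hv r
    · rw [hW.inf]
      exact inf_norm_sub r
    · have hp := hmemS p hv
      rw [hW.fin p hp]
      exact fin_norm_sub (hS p hp) (hvp p hp) r
  have hPinj : ∀ v ∈ T', ∀ v' ∈ T', P v = P v' → v = v' := by
    rintro (_ | p) hv (_ | p') hv' h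
    · rfl
    · exact absurd h (by simp [P])
    · exact absurd h (by simp [P])
    · have hp := hmemS p (hT' hv)
      have hp' := hmemS p' (hT' hv')
      have h1 : vp p = vp p' := Sum.inr_injective h
      by_contra hne
      have hne' : p ≠ p' := fun h => hne (by rw [h])
      have hcop : IsCoprime (p : ℤ) (p' : ℤ) := Nat.isCoprime_iff_coprime.2
        ((Nat.coprime_primes (hS p hp) (hS p' hp')).2 hne')
      have h2 := Pool.Agent.NH28.coprime_one (vp p) hcop (by
        rw [Int.cast_natCast]; exact hvp p hp)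
      apply h2
      rw [Int.cast_natCast, h1]
      exact hvp p' hp'
  choose g hg using fun v : Pl ℚ => exists_good (K := K) v
  -- the conjugations
  have hconj : ∀ v, ∃ σ : K ≃ₐ[ℚ] K, v ∈ T' → ∀ x, W v (φ x) = g (P v) (σ x) := by
    intro v
    by_cases hv : v ∈ T'
    · let f : AbsoluteValue K ℝ := (W v).comp (f := φ) φ.injective
      have hfap : ∀ x, f x = W v (φ x) := fun x => rfl
      have hfr : ∀ r : ℚ, f (algebraMap ℚ K r) = av (P v) r := by
        intro r
        rw [hfap, hP v (hT' hv)]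
        congr 1
        rw [← RingHom.comp_apply]
        exact RingHom.congr_fun (Subsingleton.elim (φ.comp (algebraMap ℚ K)) _) r
      have hfg : ∀ r : ℚ, f (algebraMap ℚ K r) = g (P v) (algebraMap ℚ K r) := by
        intro r
        rw [hfr, (hg (P v)).ext]
      obtain ⟨r0, hr0, hr1⟩ : ∃ r0 : ℚ, r0 ≠ 0 ∧ f (algebraMap ℚ K r0) ≠ 1 := by
        rcases v with _ | p
        · refine ⟨2, by norm_num, ?_⟩
          rw [hfr]
          have : av (P none) 2 = |((2 : ℚ) : ℝ)| := inf_norm_sub 2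
          rw [this]
          norm_num
        · have hp := hmemS p (hT' hv)
          have : Fact p.Prime := ⟨hS p hp⟩
          refine ⟨p, by exact_mod_cast (hS p hp).ne_zero, ?_⟩
          rw [hfr]
          have h2 : av (P (some p)) (p : ℚ) = ((padicNorm p (p : ℚ) : ℚ) : ℝ) :=
            fin_norm_sub (hS p hp) (hvp p hp) p
          rw [h2, padicNorm.padicNorm_p_of_prime]
          push_cast
          have h3 : (1 : ℝ) < p := by exact_mod_cast (hS p hp).one_lt
          have h4 : ((p : ℝ))⁻¹ < 1 := inv_lt_one_of_one_lt₀ h3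
          exact h4.ne
      obtain ⟨σ, hσ⟩ := conj_abs_sub f (g (P v)) hfg r0 hr0 hr1
      exact ⟨σ, fun _ x => by rw [← hfap, hσ]⟩
    · exact ⟨AlgEquiv.refl, fun h => absurd h hv⟩
  choose σ hσ using hconj
  let L' : {v // v ∈ T'} × Fin M → Fin M → K := fun l j => σ l.1.1 (Lk l.1.1 l.2 j)
  obtain ⟨Z, hZ, hmain⟩ := schV (k := ℚ) hi hM L'
  obtain ⟨C, hC0, hC⟩ := hmain (T'.image P) g (fun v _ => hg v) ε hε
  refine ⟨Z, hZ, C, fun y hy hyZ hyL => ?_⟩
  obtain ⟨x, hx⟩ : ∃ x : Fin M → ℚ, x = fun j => (y j : ℚ) := ⟨_, rfl⟩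
  have hx0 : x ≠ 0 := by
    intro h
    apply hy
    funext j
    have h1 := congrFun h j
    rw [hx] at h1
    simpa using h1
  have hdot : ∀ v (hv : v ∈ T') (a : Fin M), g (P v) (dot (L' (⟨v, hv⟩, a)) (exv K x)) =
      W v (∑ j, L v a j * (y j : Qb)) := by
    intro v hv a
    have h1 : dot (L' (⟨v, hv⟩, a)) (exv K x) = σ v (∑ j, Lk v a j * (y j : K)) := by
      unfold dot
      rw [map_sum]
      refine Finset.sum_congr rfl fun j _ => ?_
      rw [map_mul, map_intCast]
      congr 1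
      show algebraMap ℚ K (x j) = _
      rw [hx]
      simp
    rw [h1, ← hσ v hv, map_sum]
    congr 1
    refine Finset.sum_congr rfl fun j _ => ?_
    rw [map_mul, hLk v a j hv, map_intCast]
  have hdet : ∀ v (hv : v ∈ T'), (Matrix.of fun a => L' (⟨v, hv⟩, a)).det ≠ 0 := by
    intro v hv h0
    have h1 : (Matrix.of fun a => L' (⟨v, hv⟩, a)) =
        (σ v : K →+* K).mapMatrix (Matrix.of fun a j => Lk v a j) := by
      ext a j
      rfl
    rw [h1, ← RingHom.map_det] at h0
    have h2 : (Matrix.of fun a j => Lk v a j).det = 0 := by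
      apply (σ v).injective
      rw [map_zero]
      exact h0
    have h3 : L v = φ.mapMatrix (Matrix.of fun a j => Lk v a j) := by
      ext a j
      exact (hLk v a j hv).symm
    apply hL v hv
    rw [h3, ← RingHom.map_det, h2, map_zero]
  let β : Pl ℚ → Fin M → {v // v ∈ T'} × Fin M := fun pl a =>
    if h : ∃ v, v ∈ T' ∧ P v = pl then (⟨h.choose, h.choose_spec.1⟩, a) else (⟨v0, hv0⟩, a)
  have hβ : ∀ v (hv : v ∈ T') (a : Fin M), β (P v) a = (⟨v, hv⟩, a) := by
    intro v hv a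
    have h : ∃ v', v' ∈ T' ∧ P v' = P v := ⟨v, hv, rfl⟩
    have h1 : h.choose = v := hPinj _ h.choose_spec.1 _ hv h.choose_spec.2
    simp only [β, dif_pos h]
    exact Prod.ext (Subtype.ext h1) rfl
  have hfin := hC x hx0 (fun z hz => by rw [hx]; exact hyZ z hz) (by
    rintro ⟨⟨v, hv⟩, a⟩ h0
    have h1 := hdot v hv a
    rw [h0, map_zero] at h1
    exact hyL v hv a ((W v).eq_zero.1 h1.symm)) β (by
    intro pl hpl
    obtain ⟨v, hv, rfl⟩ := mem_image.1 hpl
    have : (Matrix.of fun a => L' (β (P v) a)) = (Matrix.of fun a => L' (⟨v, hv⟩, a)) := by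
      ext a j
      simp only [Matrix.of_apply]
      rw [hβ v hv a]
    rw [this]
    exact hdet v hv)
  rw [Finset.sum_image fun v hv v' hv' h => hPinj v hv v' hv' h] at hfin
  have hsum : ∑ v ∈ T', ∑ a, (Real.log (⨆ j, W v (y j : Qb)) -
      Real.log (W v (∑ j, L v a j * (y j : Qb)))) = ∑ v ∈ T', wt (P v) * ∑ a,
        (Real.log (nrm (av (P v)) x) -
          Real.log (g (P v) (dot (L' (β (P v) a)) (exv K x)))) := by
    refine Finset.sum_congr rfl fun v hv => ?_
    rw [wt_one, one_mul]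
    refine Finset.sum_congr rfl fun a _ => ?_
    rw [hβ v hv a, hdot v hv a]
    congr 2
    unfold nrm
    congr 1
    funext j
    rw [hP v (hT' hv), hx]
    simp
  rw [hsum]
  refine hfin.trans ?_
  have hh : logHeight x ≤ Real.log (Hx y) := by
    have h1 := Pool.Agent.R405.IQ.height_int y (by rw [← hx]; exact hx0) default
    rw [← hx] at h1
    have h2 : nrm (default : InfinitePlace ℚ).1 x = Hx y := by
      unfold nrm Hx
      congr 1
      funext j
      have h3 : av (Sum.inl default : Pl ℚ) (x j) = |((x j : ℚ) : ℝ)| := inf_norm_sub (x j)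
      have h4 : (default : InfinitePlace ℚ).1 (x j) = |((x j : ℚ) : ℝ)| := h3
      rw [h4, hx]
      simp
    rwa [h2] at h1
  have := mul_le_mul_of_nonneg_left hh (by positivity : (0 : ℝ) ≤ M + ε)
  linarith

end Pool.Agent.NH28.QP
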