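import Pool.Agent.NH28.QP.END
import Pool.Agent.NH28.QP.AV
import Pool.Agent.NH28.QP.BAS
import Pool.Agent.NH28.QP.FIN
import Pool.Agent.NH28.QP.HT
import Pool.Agent.NH28.QP.LIM
import Pool.Agent.NH28.QP.PF
import Pool.Agent.NH28.QP.ST
import Pool.Agent.NH28.QP.SUB
import Pool.Agent.NH28.QP.HOM
import Pool.Agent.NH28.QP.RTL
import Pool.Agent.NH28.QP.CRV
import Pool.Agent.NH28.QP.RED

/-!
Quadratic numbers: assembly of the arithmetic half.
-/

set_option autoImplicit false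

namespace Pool.Agent.NH28.QP

open Polynomial

theorem red_ASM (h : S_ALG) : S_RED :=
  t_RED (t_CRV h (t_LIM t_BDD t_FIN t_HT) (t_ST t_SUB t_BAS t_FIN t_HT) (t_PF t_FIN t_HT) t_HT)
    t_HOM (t_RTL t_FIN)

/-- the inequality, from the algebra half -/
theorem quad_ASM (h : S_ALG) (G : ℤ[X]) (hG : Squarefree (G.map (Int.castRingHom ℚ))) (q : ℕ)
    (hqG : q = G.natDegree ∨ q = G.natDegree + 1) (S : Finset ℕ) (hS : ∀ p ∈ S, p.Prime)
    (ε : ℝ) (hε : 0 < ε) :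
    ∃ C : ℝ, ∀ f : ℤ[X], Irreducible f → f.natDegree = 2 → resultant f G 2 q ≠ 0 →
      val_END G q S ε f ≤ C :=
  quad_all (red_ASM h) t_AV G hG q hqG S hS ε hε

end Pool.Agent.NH28.QP
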