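import Pool.Agent.NH28.QP.Stm

/-!
# QP-BDD: Liouville's inequality at one place (helper72)
-/

set_option autoImplicit false

open MvPolynomial Filter Topology

namespace Pool.Agent.NH28.QP

namespace BDD

theorem Hx_le {x : Fin 3 → ℤ} (i : Fin 3) : |(x i : ℝ)| ≤ Hx x :=
  le_ciSup (f := fun i => |(x i : ℝ)|) (Set.finite_range _).bddAbove i

theorem Hx_ge {x : Fin 3 → ℤ} (h : Prm x) : 1 ≤ Hx x := by
  have h1 : ∃ i, x i ≠ 0 := by
    by_contra hcon
    push Not at hcon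
    have h2 : IsUnit (2 : ℤ) := h 2 fun i => by rw [hcon i]; exact dvd_zero _
    rw [Int.isUnit_iff] at h2
    omega
  obtain ⟨i, hi⟩ := h1
  refine le_trans ?_ (Hx_le (x := x) i)
  exact_mod_cast Int.one_le_abs hi

/-- the norm of a rational number at a place -/
noncomputable def rv : Option ℕ → ℚ → ℝ
  | none, r => |(r : ℝ)|
  | some p, r => ((padicNorm p r : ℚ) : ℝ)

theorem W_rat {S : Finset ℕ} {W : Option ℕ → AbsoluteValue Qb ℝ} (hW : Gd S W) {v : Option ℕ}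
    (hv : v ∈ Tp S) (r : ℚ) : W v (algebraMap ℚ Qb r) = rv v r := by
  unfold Tp at hv
  rw [Finset.mem_insert, Finset.mem_image] at hv
  rcases hv with rfl | ⟨p, hp, rfl⟩
  · exact hW.inf r
  · exact hW.fin p hp r

theorem prime_of {S : Finset ℕ} (hS : ∀ p ∈ S, p.Prime) {p : ℕ} (hv : some p ∈ Tp S) :
    p.Prime := by
  unfold Tp at hv
  rw [Finset.mem_insert, Finset.mem_image] at hv
  rcases hv with hv | ⟨q, hq, hqp⟩
  · exact absurd hv (by simp)
  · rw [Option.some.injEq] at hqp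
    rw [← hqp]
    exact hS q hq

theorem W_int {S : Finset ℕ} {W : Option ℕ → AbsoluteValue Qb ℝ} (hW : Gd S W) {v : Option ℕ}
    (hv : v ∈ Tp S) (m : ℤ) : W v ((m : ℤ) : Qb) = rv v m := by
  rw [← W_rat hW hv]
  congr 1

theorem W_coord {S : Finset ℕ} (hS : ∀ p ∈ S, p.Prime) {W : Option ℕ → AbsoluteValue Qb ℝ}
    (hW : Gd S W) {v : Option ℕ} (hv : v ∈ Tp S) (x : Fin 3 → ℤ) (i : Fin 3) :
    W v ((x i : ℤ) : Qb) ≤ nv v x := by
  rw [W_int hW hv]
  rcases v with _ | p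
  · have := Hx_le (x := x) i
    simpa [rv, nv] using this
  · have hp : Fact p.Prime := ⟨prime_of hS hv⟩
    have h1 : padicNorm p ((x i : ℤ) : ℚ) ≤ 1 := padicNorm.of_int (x i)
    simp only [rv, nv]
    exact_mod_cast h1

theorem nv_le {v : Option ℕ} {x : Fin 3 → ℤ} (h : 1 ≤ Hx x) : 1 ≤ nv v x ∧ nv v x ≤ Hx x := by
  rcases v with _ | p
  · exact ⟨h, le_rfl⟩
  · exact ⟨le_rfl, h⟩

/-- the upper bound -/
theorem upper {S : Finset ℕ} (hS : ∀ p ∈ S, p.Prime) {W : Option ℕ → AbsoluteValue Qb ℝ}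
    (hW : Gd S W) {v : Option ℕ} (hv : v ∈ Tp S) {n : ℕ} {g : PQ} (hg : g.IsHomogeneous n) :
    ∃ C : ℝ, 1 ≤ C ∧ ∀ x : Fin 3 → ℤ, 1 ≤ Hx x → W v (ev x g) ≤ C * nv v x ^ n := by
  have h0 : ∀ μ ∈ g.support, 0 ≤ W v (coeff μ g) := fun μ _ => (W v).nonneg _
  refine ⟨1 + ∑ μ ∈ g.support, W v (coeff μ g), by
    have := Finset.sum_nonneg h0
    linarith, fun x hx => ?_⟩
  obtain ⟨n1, n2⟩ := nv_le (v := v) hx
  have hn0 : 0 ≤ nv v x ^ n := by positivity
  unfold ev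
  rw [MvPolynomial.eval_eq']
  refine ((W v).sum_le _ _).trans ?_
  have h1 : ∑ μ ∈ g.support, W v (coeff μ g * ∏ i, ((x i : ℤ) : Qb) ^ μ i) ≤
      ∑ μ ∈ g.support, W v (coeff μ g) * nv v x ^ n := by
    refine Finset.sum_le_sum fun μ hμ => ?_
    rw [map_mul]
    refine mul_le_mul_of_nonneg_left ?_ ((W v).nonneg _)
    rw [map_prod]
    have h2 : μ.degree = n := by
      rw [Finsupp.degree_eq_weight_one (R := ℕ)]
      exact hg (MvPolynomial.mem_support_iff.1 hμ)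
    rw [← h2, Finsupp.degree_eq_sum, ← Finset.prod_pow_eq_pow_sum]
    refine Finset.prod_le_prod (fun i _ => (W v).nonneg _) fun i _ => ?_
    rw [map_pow]
    exact pow_le_pow_left₀ ((W v).nonneg _) (W_coord hS hW hv x i) _
  refine h1.trans ?_
  rw [← Finset.sum_mul]
  nlinarith

/-- the upper bound for all polynomials -/
theorem upper' {S : Finset ℕ} (hS : ∀ p ∈ S, p.Prime) {W : Option ℕ → AbsoluteValue Qb ℝ}
    (hW : Gd S W) {v : Option ℕ} (hv : v ∈ Tp S) (g : PQ) :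
    ∃ (K : ℕ) (C : ℝ), 1 ≤ C ∧ ∀ x : Fin 3 → ℤ, 1 ≤ Hx x → W v (ev x g) ≤ C * Hx x ^ K := by
  induction g using MvPolynomial.induction_on with
  | C a =>
    refine ⟨0, 1 + W v a, by
      have := (W v).nonneg a
      linarith, fun x _ => ?_⟩
    unfold ev
    rw [MvPolynomial.eval_C, pow_zero, mul_one]
    linarith
  | add f g hf hg =>
    obtain ⟨K, C, hC, h⟩ := hf
    obtain ⟨K', C', hC', h'⟩ := hg
    refine ⟨K + K', C + C', by linarith, fun x hx => ?_⟩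
    have e : ev x (f + g) = ev x f + ev x g := map_add _ _ _
    rw [e]
    have h1 : Hx x ^ K ≤ Hx x ^ (K + K') := pow_le_pow_right₀ hx (by omega)
    have h2 : Hx x ^ K' ≤ Hx x ^ (K + K') := pow_le_pow_right₀ hx (by omega)
    have h3 := mul_le_mul_of_nonneg_left h1 (by linarith : 0 ≤ C)
    have h4 := mul_le_mul_of_nonneg_left h2 (by linarith : 0 ≤ C')
    have h5 := (W v).add_le (ev x f) (ev x g)
    have h6 := h x hx
    have h7 := h' x hx
    linarith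
  | mul_X f i hf =>
    obtain ⟨K, C, hC, h⟩ := hf
    refine ⟨K + 1, C, hC, fun x hx => ?_⟩
    have e : ev x (f * X i) = ev x f * ((x i : ℤ) : Qb) := by
      unfold ev
      rw [map_mul, MvPolynomial.eval_X]
    rw [e, map_mul, pow_succ, ← mul_assoc]
    exact mul_le_mul (h x hx) ((W_coord hS hW hv x i).trans (nv_le (v := v) hx).2)
      ((W v).nonneg _) (by positivity)

/-- the conjugate polynomial -/
noncomputable def cj (σ : Qb ≃ₐ[ℚ] Qb) (g : PQ) : PQ := g.map (σ : Qb →+* Qb)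

theorem ev_cj (σ : Qb ≃ₐ[ℚ] Qb) (g : PQ) (x : Fin 3 → ℤ) : ev x (cj σ g) = σ (ev x g) := by
  unfold ev cj
  rw [MvPolynomial.eval_map]
  have h := MvPolynomial.eval₂_comp_left (σ : Qb →+* Qb) (RingHom.id Qb)
    (fun i => ((x i : ℤ) : Qb)) g
  have e : ((σ : Qb →+* Qb) ∘ fun i => ((x i : ℤ) : Qb)) = fun i => ((x i : ℤ) : Qb) := by
    funext i
    simp
  rw [e, RingHom.comp_id] at h
  exact h.symm

theorem cj_cj (σ τ : Qb ≃ₐ[ℚ] Qb) (g : PQ) : cj σ (cj τ g) = cj (σ * τ) g := by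
  unfold cj
  rw [MvPolynomial.map_map]
  rfl

theorem cj_one (g : PQ) : cj 1 g = g := by
  unfold cj
  exact MvPolynomial.map_id g

theorem isGal : IsGalois ℚ Qb := by
  have h2 : @IsGalois ℚ _ (AlgebraicClosure ℚ) _
      (@AlgebraicClosure.instAlgebra ℚ _ ℚ _ (Algebra.id ℚ)) :=
    @IsAlgClosure.isGalois ℚ (AlgebraicClosure ℚ) _ _
      (@AlgebraicClosure.instAlgebra ℚ _ ℚ _ (Algebra.id ℚ))
      (@AlgebraicClosure.instIsAlgClosure ℚ _) _
  have h : (@AlgebraicClosure.instAlgebra ℚ _ ℚ _ (Algebra.id ℚ) :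
      Algebra ℚ (AlgebraicClosure ℚ)) = DivisionRing.toRatAlgebra := Subsingleton.elim _ _
  rw [h] at h2
  exact h2

theorem finite_orbit (g : PQ) : (Set.range fun σ : Qb ≃ₐ[ℚ] Qb => cj σ g).Finite := by
  have := isGal
  have h1 : {f : g.support → Qb | ∀ μ : g.support, f μ ∈
      ((minpoly ℚ (coeff (μ : Fin 3 →₀ ℕ) g)).rootSet Qb : Set Qb)}.Finite := by
    refine Set.Finite.pi' fun μ => ?_
    exact Polynomial.rootSet_finite _ _
  refine (h1.image fun f => ∑ μ : g.support, monomial (μ : Fin 3 →₀ ℕ) (f μ)).subset ?_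
  rintro _ ⟨σ, rfl⟩
  refine ⟨fun μ => σ (coeff (μ : Fin 3 →₀ ℕ) g), fun μ => ?_, ?_⟩
  · have hint : IsIntegral ℚ (coeff (μ : Fin 3 →₀ ℕ) g) := Algebra.IsIntegral.isIntegral _
    rw [Polynomial.mem_rootSet]
    refine ⟨minpoly.ne_zero hint, ?_⟩
    have h2 := Polynomial.aeval_algHom_apply (σ : Qb →ₐ[ℚ] Qb) (coeff (μ : Fin 3 →₀ ℕ) g)
      (minpoly ℚ (coeff (μ : Fin 3 →₀ ℕ) g))
    rw [minpoly.aeval, map_zero] at h2
    exact h2
  · change ∑ μ : g.support, monomial (μ : Fin 3 →₀ ℕ) (σ (coeff (μ : Fin 3 →₀ ℕ) g)) = cj σ g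
    rw [Finset.sum_coe_sort g.support (fun μ => monomial μ (σ (coeff μ g)))]
    conv_rhs => rw [g.as_sum]
    unfold cj
    rw [map_sum]
    refine Finset.sum_congr rfl fun μ _ => ?_
    rw [MvPolynomial.map_monomial]
    rfl

/-- the norm -/
theorem exists_norm (g : PQ) : ∃ (γ : PQ) (r : MvPolynomial (Fin 3) ℚ), g * γ = mp r ∧
    ∀ x : Fin 3 → ℤ, ev x g ≠ 0 → ev x (mp r) ≠ 0 := by
  classical
  have := isGal
  obtain ⟨O, hO⟩ : ∃ O : Finset PQ, ∀ h, h ∈ O ↔ ∃ σ : Qb ≃ₐ[ℚ] Qb, cj σ g = h :=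
    ⟨(finite_orbit g).toFinset, fun h => by rw [Set.Finite.mem_toFinset]; rfl⟩
  have hg : g ∈ O := (hO g).2 ⟨1, cj_one g⟩
  have hinv : ∀ τ : Qb ≃ₐ[ℚ] Qb, cj τ (∏ h ∈ O, h) = ∏ h ∈ O, h := by
    intro τ
    have h1 : cj τ (∏ h ∈ O, h) = ∏ h ∈ O, cj τ h := map_prod _ _ _
    rw [h1]
    refine Finset.prod_bij' (fun h _ => cj τ h) (fun h _ => cj τ⁻¹ h) ?_ ?_ ?_ ?_ ?_
    · intro h hh
      obtain ⟨σ, rfl⟩ := (hO h).1 hh
      exact (hO _).2 ⟨τ * σ, (cj_cj τ σ g).symm⟩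
    · intro h hh
      obtain ⟨σ, rfl⟩ := (hO h).1 hh
      exact (hO _).2 ⟨τ⁻¹ * σ, (cj_cj τ⁻¹ σ g).symm⟩
    · intro h _
      rw [cj_cj, inv_mul_cancel, cj_one]
    · intro h _
      rw [cj_cj, mul_inv_cancel, cj_one]
    · intro h _
      rfl
  have hr : (∏ h ∈ O, h) ∈ Set.range (MvPolynomial.map (algebraMap ℚ Qb) :
      MvPolynomial (Fin 3) ℚ → PQ) := by
    rw [MvPolynomial.mem_range_map_iff_coeffs_subset]
    intro c hc
    rw [MvPolynomial.coeffs] at hc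
    simp only [Finset.coe_image, Set.mem_image, Finset.mem_coe] at hc
    obtain ⟨μ, -, rfl⟩ := hc
    have h2 : ∀ τ : Qb ≃ₐ[ℚ] Qb, τ (coeff μ (∏ h ∈ O, h)) = coeff μ (∏ h ∈ O, h) := by
      intro τ
      conv_rhs => rw [← hinv τ]
      unfold cj
      rw [MvPolynomial.coeff_map]
      rfl
    have h3 := (InfiniteGalois.mem_bot_iff_fixed (k := ℚ) (K := Qb) _).2 h2
    rw [IntermediateField.mem_bot] at h3
    exact h3
  obtain ⟨r, hr⟩ := hr
  refine ⟨∏ h ∈ O.erase g, h, r, ?_, fun x hx => ?_⟩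
  · rw [Finset.mul_prod_erase O (fun h => h) hg]
    exact hr.symm
  · have e : mp r = ∏ h ∈ O, h := hr
    rw [e]
    have e2 : ev x (∏ h ∈ O, h) = ∏ h ∈ O, ev x h := map_prod _ _ _
    rw [e2, Finset.prod_ne_zero_iff]
    intro h hh
    obtain ⟨σ, rfl⟩ := (hO h).1 hh
    rw [ev_cj]
    exact (map_ne_zero σ).2 hx

/-- the denominators -/
theorem den (r : MvPolynomial (Fin 3) ℚ) : ∃ q : ℕ, q ≠ 0 ∧ ∀ x : Fin 3 → ℤ, ∃ z : ℤ,
    (q : ℚ) * MvPolynomial.eval (fun i => ((x i : ℤ) : ℚ)) r = z := by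
  induction r using MvPolynomial.induction_on with
  | C a =>
    refine ⟨a.den, a.den_nz, fun x => ⟨a.num, ?_⟩⟩
    rw [MvPolynomial.eval_C]
    exact Rat.den_mul_eq_num a
  | add f g hf hg =>
    obtain ⟨q, hq, h⟩ := hf
    obtain ⟨q', hq', h'⟩ := hg
    refine ⟨q * q', mul_ne_zero hq hq', fun x => ?_⟩
    obtain ⟨z, hz⟩ := h x
    obtain ⟨z', hz'⟩ := h' x
    refine ⟨q' * z + q * z', ?_⟩
    rw [map_add]
    push_cast
    rw [← hz, ← hz']
    ring
  | mul_X f i hf =>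
    obtain ⟨q, hq, h⟩ := hf
    refine ⟨q, hq, fun x => ?_⟩
    obtain ⟨z, hz⟩ := h x
    refine ⟨z * x i, ?_⟩
    rw [map_mul, MvPolynomial.eval_X, ← mul_assoc, hz]
    push_cast
    rfl

theorem ev_mp (r : MvPolynomial (Fin 3) ℚ) (x : Fin 3 → ℤ) :
    ev x (mp r) = algebraMap ℚ Qb (MvPolynomial.eval (fun i => ((x i : ℤ) : ℚ)) r) := by
  unfold ev mp
  rw [MvPolynomial.eval_map]
  have h := MvPolynomial.eval₂_comp_left (algebraMap ℚ Qb) (RingHom.id ℚ)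
    (fun i => ((x i : ℤ) : ℚ)) r
  have e : ((algebraMap ℚ Qb) ∘ fun i => ((x i : ℤ) : ℚ)) = fun i => ((x i : ℤ) : Qb) := by
    funext i
    simp
  rw [e, RingHom.comp_id] at h
  exact h.symm

/-- the lower bound for rational polynomials -/
theorem lower_rat {S : Finset ℕ} (hS : ∀ p ∈ S, p.Prime) {W : Option ℕ → AbsoluteValue Qb ℝ}
    (hW : Gd S W) {v : Option ℕ} (hv : v ∈ Tp S) (r : MvPolynomial (Fin 3) ℚ) :
    ∃ (K : ℕ) (C : ℝ), 1 ≤ C ∧ ∀ x : Fin 3 → ℤ, 1 ≤ Hx x → ev x (mp r) ≠ 0 →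
      1 ≤ C * Hx x ^ K * W v (ev x (mp r)) := by
  obtain ⟨q, hq, hz⟩ := den r
  have hnone : (none : Option ℕ) ∈ Tp S := Finset.mem_insert_self _ _
  obtain ⟨K, C, hC, hup⟩ := upper' hS hW hnone (mp r)
  have hq1 : (1 : ℝ) ≤ q := by exact_mod_cast Nat.one_le_iff_ne_zero.2 hq
  refine ⟨K, q * C, by nlinarith, fun x hx hne => ?_⟩
  obtain ⟨z, hz⟩ := hz x
  have hup := hup x hx
  rw [ev_mp] at hne hup ⊢
  obtain ⟨y, hy⟩ : ∃ y : ℚ, y = MvPolynomial.eval (fun i => ((x i : ℤ) : ℚ)) r := ⟨_, rfl⟩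
  rw [← hy] at hz hne hup ⊢
  have hy0 : y ≠ 0 := fun h => hne (by rw [h, map_zero])
  rw [W_rat hW hnone] at hup
  rw [W_rat hW hv]
  have hz0 : z ≠ 0 := by
    rintro rfl
    rw [Int.cast_zero, mul_eq_zero] at hz
    rcases hz with h | h
    · exact hq (by exact_mod_cast h)
    · exact hy0 h
  have hz1 : (1 : ℝ) ≤ |(z : ℝ)| := by exact_mod_cast Int.one_le_abs hz0
  have hqy : (q : ℝ) * |(y : ℝ)| = |(z : ℝ)| := by
    have h1 : ((q : ℚ) * y : ℝ) = (z : ℝ) := by exact_mod_cast congrArg (fun t : ℚ => (t : ℝ)) hz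
    rw [← h1, abs_mul]
    congr 1
    simp
  have hpow : 1 ≤ Hx x ^ K := one_le_pow₀ hx
  rcases v with _ | p
  · simp only [rv]
    have h1 : (1 : ℝ) ≤ q * |(y : ℝ)| := by rw [hqy]; exact hz1
    have h2 : 1 ≤ C * Hx x ^ K := by nlinarith
    have h3 : q * C * Hx x ^ K * |(y : ℝ)| = (C * Hx x ^ K) * (q * |(y : ℝ)|) := by ring
    rw [h3]
    nlinarith
  · have hp : Fact p.Prime := ⟨prime_of hS hv⟩
    simp only [rv] at hup ⊢
    -- the product formula for integers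
    have h1 : (1 : ℝ) ≤ |(z : ℝ)| * ((padicNorm p (z : ℚ) : ℚ) : ℝ) := by
      have h2 : (p : ℤ) ^ (padicValInt p z) ∣ z := padicValInt_dvd z
      have h3 : ((p : ℤ) ^ (padicValInt p z) : ℤ) ≤ |z| :=
        Int.le_of_dvd (abs_pos.2 hz0) ((dvd_abs _ _).2 h2)
      have h4 : padicNorm p (z : ℚ) = ((p : ℚ) ^ (padicValInt p z))⁻¹ := by
        rw [padicNorm.eq_zpow_of_nonzero (by exact_mod_cast hz0), padicValRat.of_int, zpow_neg,
          zpow_natCast]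
      have hp0 : (0 : ℝ) < (p : ℝ) ^ (padicValInt p z) := by
        have : (0 : ℝ) < p := by exact_mod_cast hp.out.pos
        positivity
      rw [h4]
      push_cast
      rw [← div_eq_mul_inv, le_div_iff₀ hp0, one_mul]
      exact_mod_cast h3
    have h5 : padicNorm p (z : ℚ) ≤ padicNorm p y := by
      rw [← hz, padicNorm.mul]
      have h6 : padicNorm p ((q : ℤ) : ℚ) ≤ 1 := padicNorm.of_int (q : ℤ)
      rw [Int.cast_natCast] at h6
      have h7 := padicNorm.nonneg (p := p) y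
      nlinarith
    have h8 : ((padicNorm p (z : ℚ) : ℚ) : ℝ) ≤ ((padicNorm p y : ℚ) : ℝ) := by exact_mod_cast h5
    have h9 : |(z : ℝ)| ≤ q * C * Hx x ^ K := by
      rw [← hqy, mul_assoc]
      exact mul_le_mul_of_nonneg_left hup (by linarith)
    have h10 : (0 : ℝ) ≤ ((padicNorm p (z : ℚ) : ℚ) : ℝ) := by
      exact_mod_cast padicNorm.nonneg (p := p) (z : ℚ)
    calc (1 : ℝ) ≤ |(z : ℝ)| * ((padicNorm p (z : ℚ) : ℚ) : ℝ) := h1
      _ ≤ (q * C * Hx x ^ K) * ((padicNorm p (z : ℚ) : ℚ) : ℝ) :=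
          mul_le_mul_of_nonneg_right h9 h10
      _ ≤ (q * C * Hx x ^ K) * ((padicNorm p y : ℚ) : ℝ) :=
          mul_le_mul_of_nonneg_left h8 (by positivity)

/-- the lower bound -/
theorem lower {S : Finset ℕ} (hS : ∀ p ∈ S, p.Prime) {W : Option ℕ → AbsoluteValue Qb ℝ}
    (hW : Gd S W) {v : Option ℕ} (hv : v ∈ Tp S) (g : PQ) :
    ∃ (K : ℕ) (C : ℝ), 1 ≤ C ∧ ∀ x : Fin 3 → ℤ, 1 ≤ Hx x → ev x g ≠ 0 →
      1 ≤ C * Hx x ^ K * W v (ev x g) := by
  obtain ⟨γ, r, h1, h2⟩ := exists_norm g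
  obtain ⟨K, C, hC, h3⟩ := lower_rat hS hW hv r
  obtain ⟨K', C', hC', h4⟩ := upper' hS hW hv γ
  refine ⟨K + K', C * C', by nlinarith, fun x hx hne => ?_⟩
  have h5 := h3 x hx (h2 x hne)
  have h6 := h4 x hx
  have e : ev x (mp r) = ev x g * ev x γ := by
    rw [← h1]
    exact map_mul _ _ _
  rw [e, map_mul] at h5
  refine h5.trans ?_
  have h7 : C * C' * Hx x ^ (K + K') * W v (ev x g) =
      C * Hx x ^ K * (W v (ev x g) * (C' * Hx x ^ K')) := by
    rw [pow_add]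
    ring
  rw [h7]
  have h8 : 0 ≤ C * Hx x ^ K := by positivity
  exact mul_le_mul_of_nonneg_left (mul_le_mul_of_nonneg_left h6 ((W v).nonneg _)) h8

end BDD

open BDD in
theorem t_BDD : S_BDD := by
  intro S hS W hW v hv n g hg
  obtain ⟨C, hC, hup⟩ := upper hS hW hv hg
  obtain ⟨K, C', hC', hlo⟩ := lower hS hW hv g
  refine ⟨n + K, Real.log C + Real.log C', by positivity,
    add_nonneg (Real.log_nonneg hC) (Real.log_nonneg hC'), fun x hx hne => ?_⟩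
  have hH := Hx_ge hx
  obtain ⟨n1, n2⟩ := nv_le (v := v) hH
  have hup := hup x hH
  have hlo := hlo x hH hne
  have hpos : 0 < W v (ev x g) := (W v).pos hne
  have hn0 : 0 < nv v x := by linarith
  have hH0 : 0 < Hx x := by linarith
  have hl1 : Real.log (W v (ev x g)) ≤ Real.log C + n * Real.log (nv v x) := by
    rw [← Real.log_pow, ← Real.log_mul (by positivity) (by positivity)]
    exact Real.log_le_log hpos hup
  have hl2 : 0 ≤ Real.log C' + K * Real.log (Hx x) + Real.log (W v (ev x g)) := by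
    rw [← Real.log_pow, ← Real.log_mul (by positivity) (by positivity),
      ← Real.log_mul (by positivity) hpos.ne']
    exact Real.log_nonneg hlo
  have hl3 : Real.log (nv v x) ≤ Real.log (Hx x) := Real.log_le_log hn0 n2
  have hl4 : (n : ℝ) * Real.log (nv v x) ≤ n * Real.log (Hx x) :=
    mul_le_mul_of_nonneg_left hl3 (Nat.cast_nonneg n)
  have hl5 := Real.log_nonneg hC
  have hl6 := Real.log_nonneg hC'
  unfold lam
  constructor
  · linarith
  · rw [add_mul]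
    linarith

end Pool.Agent.NH28.QP
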