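import Mathlib

/-!
The discriminant of an order which is maximal outside `S`.
-/

set_option autoImplicit false

namespace Pool.Agent.NH28.QP

open Polynomial IntermediateField

theorem log_sum_COR (n : ℤ) (hn : n ≠ 0) (T : Finset ℕ) (hT : n.natAbs.primeFactors ⊆ T)
    (hp : ∀ p ∈ T, p.Prime) :
    Real.log |(n : ℝ)| = ∑ p ∈ T, (padicValInt p n : ℝ) * Real.log p := by
  have h1 : |(n : ℝ)| = (n.natAbs : ℝ) := by
    rw [← Int.cast_abs, Int.abs_eq_natAbs, Int.cast_natCast]
  rw [h1, Real.log_nat_eq_sum_factorization, Finsupp.sum, Nat.support_factorization]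
  rw [Finset.sum_subset hT]
  · refine Finset.sum_congr rfl fun p hp' => ?_
    rw [Nat.factorization_def _ (hp p hp')]
    rfl
  · intro p _ hp'
    rw [← Nat.support_factorization, Finsupp.notMem_support_iff] at hp'
    rw [hp']
    simp

theorem log_le_COR (m n : ℤ) (hm : m ≠ 0) (hn : n ≠ 0) (S : Finset ℕ) (hS : ∀ p ∈ S, p.Prime)
    (h : ∀ p : ℕ, p.Prime → p ∉ S → padicValInt p m = padicValInt p n) :
    Real.log |(m : ℝ)| - ∑ p ∈ S, (padicValInt p m : ℝ) * Real.log p ≤ Real.log |(n : ℝ)| := by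
  classical
  obtain ⟨T, hT⟩ : ∃ T, T = S ∪ (m.natAbs.primeFactors ∪ n.natAbs.primeFactors) := ⟨_, rfl⟩
  have hTp : ∀ p ∈ T, p.Prime := by
    intro p hp
    rw [hT, Finset.mem_union, Finset.mem_union] at hp
    rcases hp with hp | hp | hp
    · exact hS p hp
    · exact Nat.prime_of_mem_primeFactors hp
    · exact Nat.prime_of_mem_primeFactors hp
  have hST : S ⊆ T := by rw [hT]; exact Finset.subset_union_left
  rw [log_sum_COR m hm T (by
    rw [hT]
    exact Finset.subset_union_left.trans Finset.subset_union_right) hTp,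
    log_sum_COR n hn T (by
    rw [hT]
    exact Finset.subset_union_right.trans Finset.subset_union_right) hTp,
    ← Finset.sum_sdiff hST, add_sub_cancel_right, ← Finset.sum_sdiff hST]
  have h1 : ∑ p ∈ T \ S, (padicValInt p m : ℝ) * Real.log p =
      ∑ p ∈ T \ S, (padicValInt p n : ℝ) * Real.log p := by
    refine Finset.sum_congr rfl fun p hp => ?_
    rw [Finset.mem_sdiff] at hp
    rw [h p (hTp p hp.1) hp.2]
  rw [h1]
  have h2 : 0 ≤ ∑ p ∈ S, (padicValInt p n : ℝ) * Real.log p := by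
    refine Finset.sum_nonneg fun p hp => mul_nonneg (Nat.cast_nonneg _) ?_
    exact Real.log_nonneg (by exact_mod_cast (hS p hp).one_lt.le)
  linarith

theorem minpoly_COR {x : ℂ} {f : ℤ[X]} (hf : Irreducible f) (hd : f.natDegree = 2)
    (hx : aeval x f = 0) : (minpoly ℚ x).natDegree = 2 := by
  have hprim : f.IsPrimitive := hf.isPrimitive (by omega)
  have hirr : Irreducible (f.map (algebraMap ℤ ℚ)) :=
    (hprim.irreducible_iff_irreducible_map_fraction_map).1 hf
  have hx' : aeval x (f.map (algebraMap ℤ ℚ)) = 0 := by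
    rw [aeval_map_algebraMap]
    exact hx
  have h1 := minpoly.eq_of_irreducible hirr hx'
  rw [← h1, natDegree_mul_C (inv_ne_zero (leadingCoeff_ne_zero.2 hirr.ne_zero)),
    natDegree_map_eq_of_injective (RingHom.injective_int _)]
  exact hd

theorem field_COR {x : ℂ} {f : ℤ[X]} (hf : Irreducible f) (hd : f.natDegree = 2)
    (hx : aeval x f = 0) : NumberField ℚ⟮x⟯ ∧ Module.finrank ℚ ℚ⟮x⟯ = 2 := by
  have hint : IsIntegral ℚ x := by
    by_contra h
    have h1 := minpoly.eq_zero h
    have h2 := minpoly_COR hf hd hx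
    rw [h1] at h2
    simp at h2
  have h1 : FiniteDimensional ℚ ℚ⟮x⟯ := adjoin.finiteDimensional hint
  have h2 : Module.finrank ℚ ℚ⟮x⟯ = 2 := by
    rw [adjoin.finrank hint]
    exact minpoly_COR hf hd hx
  have e : (DivisionRing.toRatAlgebra : Algebra ℚ ℚ⟮x⟯) = (ℚ⟮x⟯).algebra' := Subsingleton.elim _ _
  have h4 : @FiniteDimensional ℚ ℚ⟮x⟯ _ _ (DivisionRing.toRatAlgebra : Algebra ℚ ℚ⟮x⟯).toModule := by
    rw [e]
    exact h1
  exact ⟨@NumberField.mk _ _ inferInstance h4, h2⟩

end Pool.Agent.NH28.QP
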