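import Pool.Agent.NH28.QP.RES
import Pool.Agent.NH28.QP.BDD
import Pool.Agent.NH28.QC7

/-!
Quadratic numbers: the inequality with the discriminant of the order, without exceptions.
-/

set_option autoImplicit false

namespace Pool.Agent.NH28.QP

open Finset Polynomial
open Pool.Agent.H990R4.VJ (mm one_le_mm coeff_le)
open Pool.Agent.W180.OP (Pl av nrm)

theorem prm_END {f : ℤ[X]} (hf : Irreducible f) (hd : f.natDegree = 2) :
    Prm (fun i : Fin 3 => f.coeff i) := by
  intro d hdv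
  have hprim : f.IsPrimitive := hf.isPrimitive (by omega)
  refine hprim d ?_
  rw [C_dvd_iff_dvd_coeff]
  intro k
  rcases Nat.lt_or_ge k 3 with hk | hk
  · exact hdv ⟨k, hk⟩
  · rw [coeff_eq_zero_of_natDegree_lt (by omega)]
    exact dvd_zero d

theorem Hx_eq_END (f : ℤ[X]) : Hx (fun i : Fin 3 => f.coeff i) =
    nrm (av (Sum.inl default : Pl ℚ)) (Pool.Agent.NH28.zf 2 f) := by
  unfold Hx nrm
  congr 1
  funext j
  exact (Pool.Agent.R405.AQ.inf_int default _).symm

theorem discr_eq_END {f : ℤ[X]} (hd : f.natDegree = 2) :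
    f.discr = f.coeff 1 ^ 2 - 4 * (f.coeff 0 * f.coeff 2) := by
  have hdeg : f.degree = 2 := by
    have hf0 : f ≠ 0 := by
      rintro rfl
      simp at hd
    rw [degree_eq_natDegree hf0, hd]
    rfl
  rw [discr_of_degree_eq_two hdeg]
  ring

theorem log_padic_END {p : ℕ} (hp : p.Prime) (n : ℤ) (hn : n ≠ 0) :
    -Real.log ((padicNorm p (n : ℚ) : ℚ) : ℝ) = (padicValInt p n : ℝ) * Real.log p := by
  have : Fact p.Prime := ⟨hp⟩
  have hn' : (n : ℚ) ≠ 0 := by exact_mod_cast hn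
  rw [padicNorm.eq_zpow_of_nonzero hn', padicValRat.of_int]
  push_cast
  rw [zpow_neg, zpow_natCast, Real.log_inv, Real.log_pow]
  ring

/-- the value of the expression at a quadratic polynomial -/
noncomputable def val_END (G : ℤ[X]) (q : ℕ) (S : Finset ℕ) (ε : ℝ) (f : ℤ[X]) : ℝ :=
  (q * Real.log (mm f) - Real.log |((resultant f G 2 q : ℤ) : ℝ)|) / 2 +
    ∑ p ∈ S, (padicValInt p (resultant f G 2 q) : ℝ) * Real.log p / 2 -
    (2 + ε) * (Real.log (mm f) / 2) -
    (Real.log |((f.discr : ℤ) : ℝ)| - ∑ p ∈ S, (padicValInt p f.discr : ℝ) * Real.log p) / 2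

/-- the inequality -/
theorem quad_all (hRED : S_RED) (hAV : S_AV) (G : ℤ[X])
    (hG : Squarefree (G.map (Int.castRingHom ℚ))) (q : ℕ)
    (hqG : q = G.natDegree ∨ q = G.natDegree + 1) (S : Finset ℕ) (hS : ∀ p ∈ S, p.Prime)
    (ε : ℝ) (hε : 0 < ε) :
    ∃ C : ℝ, ∀ f : ℤ[X], Irreducible f → f.natDegree = 2 → resultant f G 2 q ≠ 0 →
      val_END G q S ε f ≤ C := by
  classical
  obtain ⟨F, hF, ⟨t, hFt⟩, hout⟩ := Pool.Agent.NH28.disc_real G hG q 2 le_rfl hqG ε hε
  obtain ⟨C1, hC1, h1⟩ := hout S hS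
  obtain ⟨P, c, hP, hPP, hc, hΦ⟩ := form_RES G hG q hqG
  obtain ⟨W, hW⟩ := hAV S hS
  have hE := hRED F t hFt hF q P hP hPP (Ph_RES G q) c hc hΦ S hS W hW ε hε
  set E := {x : Fin 3 → ℤ | Prm x ∧ ev x (mp F) = 0 ∧ ev x (mp (Ph_RES G q)) ≠ 0 ∧
      (4 + ε) * Real.log (Hx x) < ∑ v ∈ Tp S, lam W v (q + 2) (mp (Ph_RES G q)) x} with hEdef
  have hl3 : 0 < Real.log 3 := Real.log_pos (by norm_num)
  have hl2 : 0 < Real.log 2 := Real.log_pos (by norm_num)
  have hq0 : (0 : ℝ) ≤ q := Nat.cast_nonneg q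
  refine ⟨C1 + ((q + 2) * Real.log 3 + (4 + ε) * (2 * Real.log 2)) / 2 +
    ∑ x ∈ hE.toFinset, |val_END G q S ε (qz_RES x)|, fun f hf hd hR => ?_⟩
  have hs0 : 0 ≤ ∑ x ∈ hE.toFinset, |val_END G q S ε (qz_RES x)| :=
    Finset.sum_nonneg fun x _ => abs_nonneg _
  have hK0 : 0 ≤ ((q + 2) * Real.log 3 + (4 + ε) * (2 * Real.log 2)) / 2 := by positivity
  have hdf := Pool.Agent.NH28.discr_ne hf (by omega)
  have hmm1 : 1 ≤ mm f := one_le_mm hf.ne_zero
  have hδ0 := Pool.Agent.NH28.sum_padic_le S hS f.discr hdf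
  by_cases hFf : MvPolynomial.eval (Pool.Agent.NH28.zf 2 f) F ≠ 0
  · have h2 := h1 f hf hd hR hFf _ _ _ _ rfl rfl (fun p => rfl) rfl
    suffices h : val_END G q S ε f ≤ C1 by linarith
    unfold val_END
    have e2 : (2 : ℝ) * 2 - 2 = 2 := by norm_num
    simp only [Nat.cast_ofNat, e2] at h2
    beta_reduce at h2
    have e3 : (Real.log |((f.discr : ℤ) : ℝ)| -
        ∑ p ∈ S, (padicValInt p f.discr : ℝ) * Real.log p) / 2 / 2 ≤
        (Real.log |((f.discr : ℤ) : ℝ)| -
        ∑ p ∈ S, (padicValInt p f.discr : ℝ) * Real.log p) / 2 := by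
      linarith
    linarith
  push Not at hFf
  obtain ⟨x, hx⟩ : ∃ x : Fin 3 → ℤ, x = fun i : Fin 3 => f.coeff i := ⟨_, rfl⟩
  have hxf : qz_RES x = f := by rw [hx]; exact qz_of_RES hd
  have hprm : Prm x := by rw [hx]; exact prm_END hf hd
  by_cases hxE : x ∈ E
  · have h2 := Finset.single_le_sum (f := fun x => |val_END G q S ε (qz_RES x)|)
      (fun x _ => abs_nonneg _) (hE.mem_toFinset.2 hxE)
    simp only [hxf] at h2
    have h3 := le_abs_self (val_END G q S ε f)
    linarith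
  -- on the curve
  set R := resultant f G 2 q with hRdef
  have hN0 : R * f.discr ≠ 0 := mul_ne_zero hR hdf
  have hev : ev x (mp (Ph_RES G q)) = ((R * f.discr : ℤ) : Qb) := by
    rw [ev_Ph_RES, hxf, discr_eq_END hd, hx]
    rfl
  have hev0 : ev x (mp (Ph_RES G q)) ≠ 0 := by
    rw [hev]
    exact_mod_cast hN0
  have hevF : ev x (mp F) = 0 := by
    rw [BDD.ev_mp]
    have : (fun i => ((x i : ℤ) : ℚ)) = Pool.Agent.NH28.zf 2 f := by
      rw [hx]
      rfl
    rw [this, hFf, map_zero]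
  have hle : ∑ v ∈ Tp S, lam W v (q + 2) (mp (Ph_RES G q)) x ≤ (4 + ε) * Real.log (Hx x) := by
    by_contra hcon
    push Not at hcon
    exact hxE ⟨hprm, hevF, hev0, hcon⟩
  -- the sum
  have hevq : ev x (mp (Ph_RES G q)) = algebraMap ℚ Qb ((R * f.discr : ℤ) : ℚ) := by
    rw [hev]
    simp
  have hsum : ∑ v ∈ Tp S, lam W v (q + 2) (mp (Ph_RES G q)) x =
      (q + 2) * Real.log (Hx x) - Real.log |((R : ℤ) : ℝ)| - Real.log |((f.discr : ℤ) : ℝ)| +
      (∑ p ∈ S, (padicValInt p R : ℝ) * Real.log p +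
        ∑ p ∈ S, (padicValInt p f.discr : ℝ) * Real.log p) := by
    unfold Tp
    rw [Finset.sum_insert (by simp), Finset.sum_image (by simp)]
    congr 1
    · unfold lam
      rw [hevq, hW.inf]
      push_cast
      rw [abs_mul, Real.log_mul (by positivity) (by positivity)]
      show ((q : ℝ) + 2) * Real.log (Hx x) - _ = _
      ring
    · rw [← Finset.sum_add_distrib]
      refine Finset.sum_congr rfl fun p hp => ?_
      unfold lam
      rw [hevq, hW.fin p hp]
      have h2 := log_padic_END (hS p hp) (R * f.discr) hN0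
      have : Fact p.Prime := ⟨hS p hp⟩
      rw [padicValInt.mul hR hdf] at h2
      show _ * Real.log 1 - _ = _
      rw [Real.log_one, mul_zero, zero_sub, h2]
      push_cast
      ring
  rw [hsum] at hle
  -- comparison of the heights
  have hHx1 : 1 ≤ Hx x := BDD.Hx_ge hprm
  have hHn : Hx x = nrm (av (Sum.inl default : Pl ℚ)) (Pool.Agent.NH28.zf 2 f) := by
    rw [hx]
    exact Hx_eq_END f
  have k1 : Real.log (Hx x) ≤ Real.log (mm f) + 2 * Real.log 2 := by
    have h2 : Hx x ≤ 2 ^ 2 * mm f := by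
      rw [hHn]
      exact Pool.Agent.NH28.nrm_zf_le hd
    have h3 := Real.log_le_log (by linarith) h2
    rw [Real.log_mul (by positivity) (by linarith), Real.log_pow] at h3
    push_cast at h3
    linarith
  have k2 : Real.log (mm f) ≤ Real.log (Hx x) + Real.log 3 := by
    have h2 : mm f ≤ 3 * Hx x := by
      rw [hHn]
      have := Pool.Agent.NH28.mm_le_zf hd
      norm_num at this
      exact this
    have h3 := Real.log_le_log (by linarith) h2
    rw [Real.log_mul (by positivity) (by linarith)] at h3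
    linarith
  have k3 : ((q : ℝ) + 2) * Real.log (mm f) ≤ (q + 2) * (Real.log (Hx x) + Real.log 3) :=
    mul_le_mul_of_nonneg_left k2 (by positivity)
  have k4 : (4 + ε) * Real.log (Hx x) ≤ (4 + ε) * (Real.log (mm f) + 2 * Real.log 2) :=
    mul_le_mul_of_nonneg_left k1 (by positivity)
  suffices h : val_END G q S ε f ≤
      ((q + 2) * Real.log 3 + (4 + ε) * (2 * Real.log 2)) / 2 by linarith
  unfold val_END
  rw [← Finset.sum_div, ← hRdef]
  linarith

end Pool.Agent.NH28.QP
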