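import Pool.Agent.NH28.QP.Stm
import Pool.Agent.NH28.QD9

/-!
The form `resultant * discriminant`.
-/

set_option autoImplicit false

namespace Pool.Agent.NH28.QP

open Polynomial

theorem embed_RES {M : Type} [Field M] [NumberField M] : Nonempty (M →+* Qb) :=
  ⟨((IsAlgClosed.lift : M →ₐ[ℚ] Qb) : M →+* Qb)⟩

/-- the generic quadratic polynomial -/
noncomputable def gq_RES : (MvPolynomial (Fin 3) ℤ)[X] :=
  C (MvPolynomial.X 0) + C (MvPolynomial.X 1) * X + C (MvPolynomial.X 2) * X ^ 2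

/-- the quadratic polynomial of an integer vector -/
noncomputable def qz_RES (n : Fin 3 → ℤ) : ℤ[X] := C (n 0) + C (n 1) * X + C (n 2) * X ^ 2

theorem map_gq_RES (n : Fin 3 → ℤ) : gq_RES.map (MvPolynomial.eval n) = qz_RES n := by
  unfold gq_RES qz_RES
  simp

theorem coeff_qz_RES (n : Fin 3 → ℤ) : (qz_RES n).coeff 0 = n 0 ∧ (qz_RES n).coeff 1 = n 1 ∧
    (qz_RES n).coeff 2 = n 2 := by
  unfold qz_RES
  have h1 : ∀ a : ℤ, (C a : ℤ[X]).coeff 1 = 0 := fun a => coeff_C_succ
  have h2 : ∀ a : ℤ, (C a : ℤ[X]).coeff 2 = 0 := fun a => coeff_C_succ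
  refine ⟨?_, ?_, ?_⟩
  · simp
  · rw [coeff_add, coeff_add, h1, coeff_C_mul, coeff_C_mul, coeff_X_one, coeff_X_pow]
    simp
  · rw [coeff_add, coeff_add, h2, coeff_C_mul, coeff_C_mul, coeff_X_pow, coeff_X]
    simp

theorem natDegree_qz_RES (n : Fin 3 → ℤ) (h : n 2 ≠ 0) : (qz_RES n).natDegree = 2 := by
  have h1 : qz_RES n = C (n 2) * X ^ 2 + C (n 1) * X + C (n 0) := by
    unfold qz_RES
    ring
  rw [h1]
  exact natDegree_quadratic h

theorem qz_of_RES {f : ℤ[X]} (hf : f.natDegree = 2) :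
    qz_RES (fun i : Fin 3 => f.coeff i) = f := by
  have h1 := f.as_sum_range' 3 (by omega)
  rw [Finset.sum_range_succ, Finset.sum_range_succ, Finset.sum_range_one] at h1
  conv_rhs => rw [h1]
  unfold qz_RES
  rw [← C_mul_X_pow_eq_monomial, ← C_mul_X_pow_eq_monomial, ← C_mul_X_pow_eq_monomial]
  simp

/-- the generic resultant -/
noncomputable def rs_RES (G : ℤ[X]) (q : ℕ) : MvPolynomial (Fin 3) ℤ :=
  resultant gq_RES (G.map MvPolynomial.C) 2 q

theorem eval_rs_RES (G : ℤ[X]) (q : ℕ) (n : Fin 3 → ℤ) :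
    MvPolynomial.eval n (rs_RES G q) = resultant (qz_RES n) G 2 q := by
  unfold rs_RES
  rw [← resultant_map_map, map_gq_RES, Polynomial.map_map]
  congr 1
  have : (MvPolynomial.eval n).comp MvPolynomial.C = RingHom.id ℤ := by
    ext x
    simp
  rw [this, Polynomial.map_id]

/-- the form `resultant * discriminant` over the integers -/
noncomputable def ph_RES (G : ℤ[X]) (q : ℕ) : MvPolynomial (Fin 3) ℤ :=
  rs_RES G q * (MvPolynomial.X 1 ^ 2 - 4 * (MvPolynomial.X 0 * MvPolynomial.X 2))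

theorem eval_ph_RES (G : ℤ[X]) (q : ℕ) (n : Fin 3 → ℤ) :
    MvPolynomial.eval n (ph_RES G q) = resultant (qz_RES n) G 2 q * (n 1 ^ 2 - 4 * (n 0 * n 2)) := by
  unfold ph_RES
  rw [map_mul, eval_rs_RES]
  simp

/-- over the rational numbers -/
noncomputable def Ph_RES (G : ℤ[X]) (q : ℕ) : MvPolynomial (Fin 3) ℚ :=
  (ph_RES G q).map (Int.castRingHom ℚ)

theorem ev_Ph_RES (G : ℤ[X]) (q : ℕ) (n : Fin 3 → ℤ) : QP.ev n (mp (Ph_RES G q)) =
    ((resultant (qz_RES n) G 2 q * (n 1 ^ 2 - 4 * (n 0 * n 2)) : ℤ) : Qb) := by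
  unfold QP.ev mp Ph_RES
  rw [MvPolynomial.map_map, MvPolynomial.eval_map, ← eval_ph_RES]
  have h1 : (fun i => ((n i : ℤ) : Qb)) = fun i => (Int.castRingHom Qb) (n i) := rfl
  have h2 : (algebraMap ℚ Qb).comp (Int.castRingHom ℚ) = Int.castRingHom Qb :=
    Subsingleton.elim _ _
  rw [h1, h2]
  exact (MvPolynomial.eval₂_comp (Int.castRingHom Qb) n (ph_RES G q)).symm

open Pool.Agent.R405.AQ in
/-- the form over the algebraic numbers -/
theorem form_RES (G : ℤ[X]) (hG : Squarefree (G.map (Int.castRingHom ℚ))) (q : ℕ)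
    (hqG : q = G.natDegree ∨ q = G.natDegree + 1) :
    ∃ (P : Fin q → Qb × Qb) (c : Qb), (∀ l, P l ≠ 0) ∧
      (∀ l l', l ≠ l' → (P l).1 * (P l').2 - (P l).2 * (P l').1 ≠ 0) ∧ c ≠ 0 ∧
      mp (Ph_RES G q) = MvPolynomial.C c * (Dc * ∏ l, Hp (P l)) := by
  obtain ⟨M, _, _, hi, D, rfl⟩ := exists_div G hG q hqG
  obtain ⟨φ⟩ := embed_RES (M := M)
  refine ⟨fun l => (φ (D.P l).1, φ (D.P l).2), φ D.γ ^ 2, ?_, ?_, ?_, ?_⟩
  · intro l h
    apply D.ne l
    have h1 := congrArg Prod.fst h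
    have h2 := congrArg Prod.snd h
    exact Prod.ext (φ.injective (h1.trans (map_zero φ).symm))
      (φ.injective (h2.trans (map_zero φ).symm))
  · intro l l' hne h
    have h1 := D.pw l l' hne
    apply h1
    apply φ.injective
    rw [map_mul, map_mul]
    simp only at h
    linear_combination h
  · exact pow_ne_zero _ ((map_ne_zero φ).2 D.γ0)
  · -- comparison at the integer points
    have hinf : Function.Injective (fun n : ℤ => (n : Qb)) := Int.cast_injective
    refine MvPolynomial.funext_set (s := fun i : Fin 3 => (fun n : ℤ => (n : Qb)) ''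
      {n : ℤ | i = 2 → n ≠ 0}) ?_ ?_
    · intro i
      refine Set.Infinite.image hinf.injOn ?_
      have h1 : ({0}ᶜ : Set ℤ).Infinite := (Set.finite_singleton 0).infinite_compl
      exact h1.mono fun n hn _ => hn
    · intro x hx
      have hx' : ∀ i, ∃ n : ℤ, (i = 2 → n ≠ 0) ∧ (n : Qb) = x i := fun i => hx i (Set.mem_univ i)
      choose n hn1 hn2 using hx'
      have hxn : x = fun i => ((n i : ℤ) : Qb) := funext fun i => (hn2 i).symm
      have hd : (qz_RES n).natDegree = 2 := natDegree_qz_RES n (hn1 2 rfl)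
      have e1 := ev_Ph_RES D.g q n
      have e2 := congrArg φ (Pool.Agent.NH28.res_two D (qz_RES n) hd)
      rw [map_intCast, map_mul, map_pow, map_prod] at e2
      have e3 : ∀ l, φ (Pool.Agent.R405.dot (Pool.Agent.NH28.Qe (D.P l))
          (Pool.Agent.R405.exv M (cz (Pool.Agent.R405.AQ.ev (qz_RES n))))) =
          φ (D.P l).2 ^ 2 * (n 0 : Qb) + φ (D.P l).1 * φ (D.P l).2 * (n 1 : Qb) +
            φ (D.P l).1 ^ 2 * (n 2 : Qb) := by
        intro l
        obtain ⟨c0, c1, c2⟩ := coeff_qz_RES n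
        rw [Pool.Agent.NH28.dot_Qe]
        have z0 : Pool.Agent.R405.exv M (cz (Pool.Agent.R405.AQ.ev (qz_RES n))) 0 = (n 0 : M) := by
          show algebraMap ℚ M (((qz_RES n).coeff 0 : ℤ) : ℚ) = _
          rw [c0]
          simp
        have z1 : Pool.Agent.R405.exv M (cz (Pool.Agent.R405.AQ.ev (qz_RES n))) 1 = (n 1 : M) := by
          show algebraMap ℚ M (((qz_RES n).coeff 1 : ℤ) : ℚ) = _
          rw [c1]
          simp
        have z2 : Pool.Agent.R405.exv M (cz (Pool.Agent.R405.AQ.ev (qz_RES n))) 2 = (n 2 : M) := by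
          show algebraMap ℚ M (((qz_RES n).coeff 2 : ℤ) : ℚ) = _
          rw [c2]
          simp
        rw [z0, z1, z2]
        simp only [map_add, map_mul, map_pow, map_intCast]
      rw [Finset.prod_congr rfl fun l _ => e3 l] at e2
      have e4 : MvPolynomial.eval x (mp (Ph_RES D.g q)) = QP.ev n (mp (Ph_RES D.g q)) := by
        rw [hxn]
        rfl
      rw [e4, e1, Int.cast_mul, e2, hxn]
      unfold Dc Hp
      simp only [map_mul, map_sub, map_pow, map_add, map_prod, MvPolynomial.eval_C,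
        MvPolynomial.eval_X, map_ofNat]
      push_cast
      ring

end Pool.Agent.NH28.QP
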