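import Mathlib

/-!
# Quadratic points on exceptional curves: the arithmetic half (statements)

A quadratic polynomial `x 0 + x 1 T + x 2 T ^ 2` is a rational point `x` of the plane. The points are
primitive integer vectors `x`. For a finite set `S` of primes the places are `none` (the infinite
place) and `some p`, `p ∈ S`. The absolute values are chosen on the algebraic closure of `ℚ`.
-/

set_option autoImplicit false

open MvPolynomial Filter Topology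

namespace Pool.Agent.NH28.QP

/-- the algebraic numbers -/
abbrev Qb : Type := AlgebraicClosure ℚ

/-- ternary polynomials with algebraic coefficients -/
abbrev PQ : Type := MvPolynomial (Fin 3) Qb

/-- a rational polynomial as a polynomial with algebraic coefficients -/
noncomputable def mp (F : MvPolynomial (Fin 3) ℚ) : PQ := F.map (algebraMap ℚ Qb)

/-- forms of degree `n` not divisible by `F` -/
def Fm (F : PQ) (n : ℕ) (g : PQ) : Prop := g.IsHomogeneous n ∧ ¬ F ∣ g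

/-- the maximum norm of an integer vector -/
noncomputable def Hx {m : ℕ} (x : Fin m → ℤ) : ℝ := ⨆ i, |(x i : ℝ)|

/-- primitive vectors -/
def Prm (x : Fin 3 → ℤ) : Prop := ∀ d : ℤ, (∀ i, d ∣ x i) → IsUnit d

/-- the value of a polynomial at an integer point -/
noncomputable def ev (x : Fin 3 → ℤ) (g : PQ) : Qb := MvPolynomial.eval (fun i => ((x i : ℤ) : Qb)) g

/-- the places -/
def Tp (S : Finset ℕ) : Finset (Option ℕ) := insert none (S.image some)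

/-- absolute values of the algebraic numbers which extend the absolute values of `ℚ` -/
structure Gd (S : Finset ℕ) (W : Option ℕ → AbsoluteValue Qb ℝ) : Prop where
  inf : ∀ r : ℚ, W none (algebraMap ℚ Qb r) = |(r : ℝ)|
  fin : ∀ p ∈ S, ∀ r : ℚ, W (some p) (algebraMap ℚ Qb r) = ((padicNorm p r : ℚ) : ℝ)

/-- the norm of a primitive vector at a place -/
noncomputable def nv : Option ℕ → (Fin 3 → ℤ) → ℝ
  | none, x => Hx x
  | some _, _ => 1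

/-- the local height of the curve `g = 0`, `g` of degree `n`, at the place `v` -/
noncomputable def lam (W : Option ℕ → AbsoluteValue Qb ℝ) (v : Option ℕ) (n : ℕ) (g : PQ)
    (x : Fin 3 → ℤ) : ℝ := n * Real.log (nv v x) - Real.log (W v (ev x g))

/-- a valuation on the forms modulo `F` -/
structure IsW (F : PQ) (w : PQ → ℝ) : Prop where
  nonneg : ∀ n g, Fm F n g → 0 ≤ w g
  mul : ∀ m n g h, Fm F m g → Fm F n h → w (g * h) = w g + w h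
  add : ∀ n g h, Fm F n g → Fm F n h → Fm F n (g + h) → min (w g) (w h) ≤ w (g + h)
  cst : ∀ c : Qb, c ≠ 0 → w (C c) = 0
  lin : ∃ i : Fin 3, Fm F 1 (X i) ∧ w (X i) = 0
  cgr : ∀ n g h, Fm F n g → Fm F n h → F ∣ g - h → w g = w h

/-- an infinite sequence of rational points of a curve -/
structure Sq (F0 : MvPolynomial (Fin 3) ℚ) (x : ℕ → Fin 3 → ℤ) : Prop where
  inj : Function.Injective x
  prm : ∀ j, Prm (x j)
  zer : ∀ j, ev (x j) (mp F0) = 0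

/-- `w` is the limit of the normalised local heights along an ultrafilter -/
def Lm (F0 : MvPolynomial (Fin 3) ℚ) (S : Finset ℕ) (W : Option ℕ → AbsoluteValue Qb ℝ)
    (x : ℕ → Fin 3 → ℤ) (U : Ultrafilter ℕ) (w : Option ℕ → PQ → ℝ) : Prop :=
  ∀ v ∈ Tp S, ∀ n g, Fm (mp F0) n g →
    Tendsto (fun j => lam W v n g (x j) / Real.log (Hx (x j))) U (𝓝 (w v g))

/-- the subspace theorem on the curve `F = 0` of degree `d` (in degree `N` there are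
`M = d N - d (d - 3) / 2` forms which are linearly independent modulo `F`) -/
def STc (F : PQ) (d : ℕ) (T : Finset (Option ℕ)) (w : Option ℕ → PQ → ℝ) : Prop :=
  ∀ T' ⊆ T, ∀ N M : ℕ, d ≤ N → 2 * M + d * d = 2 * d * N + 3 * d →
    ∀ b : Option ℕ → Fin M → PQ, (∀ v ∈ T', ∀ j, (b v j).IsHomogeneous N) →
      (∀ v ∈ T', ∀ a : Fin M → Qb, F ∣ ∑ j, C (a j) * b v j → a = 0) →
      ∑ v ∈ T', ∑ j, w v (b v j) ≤ N * M

/-- the product formula -/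
def PFc (F0 : MvPolynomial (Fin 3) ℚ) (T : Finset (Option ℕ)) (w : Option ℕ → PQ → ℝ) : Prop :=
  ∀ T' ⊆ T, ∀ (n : ℕ) (g0 : MvPolynomial (Fin 3) ℚ), Fm (mp F0) n (mp g0) →
    ∑ v ∈ T', w v (mp g0) ≤ n

/-- the discriminant -/
noncomputable def Dc : PQ := X 1 ^ 2 - 4 * (X 0 * X 2)

/-- the line of the polynomials which vanish at a point -/
noncomputable def Hp (P : Qb × Qb) : PQ :=
  C (P.2 ^ 2) * X 0 + C (P.1 * P.2) * X 1 + C (P.1 ^ 2) * X 2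

/-! ## Statements -/

/-- (QP-AV) the absolute values extend -/
def S_AV : Prop := ∀ S : Finset ℕ, (∀ p ∈ S, p.Prime) → ∃ W, Gd S W

/-- (QP-SUB) the subspace theorem over `ℚ` -/
def S_SUB : Prop := ∀ S : Finset ℕ, (∀ p ∈ S, p.Prime) → ∀ W, Gd S W → ∀ T' ⊆ Tp S,
  ∀ M : ℕ, 1 ≤ M → ∀ L : Option ℕ → Matrix (Fin M) (Fin M) Qb, (∀ v ∈ T', (L v).det ≠ 0) →
  ∀ ε : ℝ, 0 < ε → ∃ Z : Finset (Fin M → ℚ), (∀ z ∈ Z, z ≠ 0) ∧ ∃ c : ℝ,
    ∀ y : Fin M → ℤ, y ≠ 0 → (∀ z ∈ Z, ∑ j, z j * (y j : ℚ) ≠ 0) →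
      (∀ v ∈ T', ∀ a, ∑ j, L v a j * (y j : Qb) ≠ 0) →
      ∑ v ∈ T', ∑ a, (Real.log (⨆ j, W v (y j : Qb)) -
        Real.log (W v (∑ j, L v a j * (y j : Qb)))) ≤ (M + ε) * Real.log (Hx y) + c

/-- (QP-BAS) a basis of monomials modulo a form, over all fields -/
def S_BAS : Prop := ∀ (k0 : Type) [Field k0] (F : MvPolynomial (Fin 3) k0) (d : ℕ),
  F.IsHomogeneous d → F ≠ 0 → ∀ N : ℕ, ∃ (M : ℕ) (e : Fin M → (Fin 3 →₀ ℕ)),
    (d ≤ N → 2 * M + d * d = 2 * d * N + 3 * d) ∧ (∀ i, (e i).degree = N) ∧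
    ∀ (k : Type) [Field k] [Algebra k0 k] (g : MvPolynomial (Fin 3) k), g.IsHomogeneous N →
      ∃! a : Fin M → k, F.map (algebraMap k0 k) ∣ g - ∑ i, monomial (e i) (a i)

/-- (QP-FIN) two curves without common component have finitely many common points -/
def S_FIN : Prop := ∀ (F : PQ) (d : ℕ), F.IsHomogeneous d → Irreducible F → ∀ (n : ℕ) (g : PQ),
  Fm F n g → {x : Fin 3 → ℤ | Prm x ∧ ev x F = 0 ∧ ev x g = 0}.Finite

/-- (QP-HT) the heights tend to infinity -/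
def S_HT : Prop := ∀ x : ℕ → Fin 3 → ℤ, Function.Injective x →
  Tendsto (fun j => Real.log (Hx (x j))) cofinite atTop

/-- (QP-BDD) bounds for the local heights (Liouville's inequality at one place) -/
def S_BDD : Prop := ∀ S : Finset ℕ, (∀ p ∈ S, p.Prime) → ∀ W, Gd S W → ∀ v ∈ Tp S,
  ∀ (n : ℕ) (g : PQ), g.IsHomogeneous n → ∃ K c : ℝ, 0 ≤ K ∧ 0 ≤ c ∧
    ∀ x : Fin 3 → ℤ, Prm x → ev x g ≠ 0 →
      -c ≤ lam W v n g x ∧ lam W v n g x ≤ K * Real.log (Hx x) + c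

/-- (QP-LIM) the limit valuations -/
def S_LIM : Prop := ∀ (F0 : MvPolynomial (Fin 3) ℚ) (d : ℕ), F0.IsHomogeneous d →
  Irreducible (mp F0) → ∀ S : Finset ℕ, (∀ p ∈ S, p.Prime) → ∀ W, Gd S W → ∀ x, Sq F0 x →
  ∀ U : Ultrafilter ℕ, (U : Filter ℕ) ≤ cofinite →
    ∃ w : Option ℕ → PQ → ℝ, Lm F0 S W x U w ∧ ∀ v ∈ Tp S, IsW (mp F0) (w v)

/-- (QP-PF) the product formula for the limits -/
def S_PF : Prop := ∀ (F0 : MvPolynomial (Fin 3) ℚ) (d : ℕ), F0.IsHomogeneous d →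
  Irreducible (mp F0) → ∀ S : Finset ℕ, (∀ p ∈ S, p.Prime) → ∀ W, Gd S W → ∀ x, Sq F0 x →
  ∀ U : Ultrafilter ℕ, (U : Filter ℕ) ≤ cofinite →
    ∀ w, Lm F0 S W x U w → PFc F0 (Tp S) w

/-- (QP-ST) the subspace theorem for the limits -/
def S_ST : Prop := ∀ (F0 : MvPolynomial (Fin 3) ℚ) (d : ℕ), F0.IsHomogeneous d →
  Irreducible (mp F0) → ∀ S : Finset ℕ, (∀ p ∈ S, p.Prime) → ∀ W, Gd S W → ∀ x, Sq F0 x →
  ∀ U : Ultrafilter ℕ, (U : Filter ℕ) ≤ cofinite →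
    ∀ w, Lm F0 S W x U w → STc (mp F0) d (Tp S) w

/-- (QP-HOM) the irreducible factors of a form -/
def S_HOM : Prop := ∀ (G : PQ) (t : ℕ), G.IsHomogeneous t → G ≠ 0 →
  ∃ s : Finset PQ, (∀ g ∈ s, Irreducible g ∧ ∃ d : ℕ, g.IsHomogeneous d) ∧
    ∀ x : Fin 3 → ℤ, ev x G = 0 → ∃ g ∈ s, ev x g = 0

/-- (QP-RTL) curves with infinitely many rational points are rational -/
def S_RTL : Prop := ∀ (g : PQ) (d : ℕ), g.IsHomogeneous d → Irreducible g →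
  {x : Fin 3 → ℤ | Prm x ∧ ev x g = 0}.Finite ∨
    ∃ (F0 : MvPolynomial (Fin 3) ℚ) (c : Qb), c ≠ 0 ∧ F0.IsHomogeneous d ∧ mp F0 = C c * g

/-- (the algebra half, helper95) -/
def S_ALG : Prop := ∀ (F0 : MvPolynomial (Fin 3) ℚ) (d : ℕ), F0.IsHomogeneous d →
  Irreducible (mp F0) → ∀ (q : ℕ) (P : Fin q → Qb × Qb), (∀ l, P l ≠ 0) →
  (∀ l l', l ≠ l' → (P l).1 * (P l').2 - (P l).2 * (P l').1 ≠ 0) →
  ∀ (Φ0 : MvPolynomial (Fin 3) ℚ) (c : Qb), c ≠ 0 → mp Φ0 = C c * (Dc * ∏ l, Hp (P l)) →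
  ¬ mp F0 ∣ mp Φ0 → ∀ (T : Finset (Option ℕ)) (w : Option ℕ → PQ → ℝ),
  (∀ v ∈ T, IsW (mp F0) (w v)) → STc (mp F0) d T w → PFc F0 T w → ∑ v ∈ T, w v (mp Φ0) ≤ 4

/-- (QP-CRV) the theorem on an irreducible curve -/
def S_CRV : Prop := ∀ (F0 : MvPolynomial (Fin 3) ℚ) (d : ℕ), F0.IsHomogeneous d →
  Irreducible (mp F0) → ∀ (q : ℕ) (P : Fin q → Qb × Qb), (∀ l, P l ≠ 0) →
  (∀ l l', l ≠ l' → (P l).1 * (P l').2 - (P l).2 * (P l').1 ≠ 0) →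
  ∀ (Φ0 : MvPolynomial (Fin 3) ℚ) (c : Qb), c ≠ 0 → mp Φ0 = C c * (Dc * ∏ l, Hp (P l)) →
  ¬ mp F0 ∣ mp Φ0 → ∀ S : Finset ℕ, (∀ p ∈ S, p.Prime) → ∀ W, Gd S W → ∀ ε : ℝ, 0 < ε →
    {x : Fin 3 → ℤ | Prm x ∧ ev x (mp F0) = 0 ∧ ev x (mp Φ0) ≠ 0 ∧
      (4 + ε) * Real.log (Hx x) < ∑ v ∈ Tp S, lam W v (q + 2) (mp Φ0) x}.Finite

/-- (QP-RED) the theorem on an arbitrary curve -/
def S_RED : Prop := ∀ (G0 : MvPolynomial (Fin 3) ℚ) (t : ℕ), G0.IsHomogeneous t → G0 ≠ 0 →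
  ∀ (q : ℕ) (P : Fin q → Qb × Qb), (∀ l, P l ≠ 0) →
  (∀ l l', l ≠ l' → (P l).1 * (P l').2 - (P l).2 * (P l').1 ≠ 0) →
  ∀ (Φ0 : MvPolynomial (Fin 3) ℚ) (c : Qb), c ≠ 0 → mp Φ0 = C c * (Dc * ∏ l, Hp (P l)) →
  ∀ S : Finset ℕ, (∀ p ∈ S, p.Prime) → ∀ W, Gd S W → ∀ ε : ℝ, 0 < ε →
    {x : Fin 3 → ℤ | Prm x ∧ ev x (mp G0) = 0 ∧ ev x (mp Φ0) ≠ 0 ∧
      (4 + ε) * Real.log (Hx x) < ∑ v ∈ Tp S, lam W v (q + 2) (mp Φ0) x}.Finite

end Pool.Agent.NH28.QP
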